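import Mathlib
import Pool.Agent.H905R3.RatMap

/-!
General facts on rational self-maps of projective space: reduction of a tuple of homogeneous
polynomials, existence of the iterates of a dominant map, upper and lower bounds for the degree of
an iterate.
-/

set_option autoImplicit false

namespace Pool.Agent.K9h85.DG

open MvPolynomial Pool.Agent.H905R3

variable {K : Type*} [Field K] {N : ℕ}

/-- A divisor of a nonzero homogeneous polynomial is homogeneous. -/
theorem homog_of_dvd {σ : Type*} [Finite σ] {F G : MvPolynomial σ K} {n : ℕ}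
    (hF : F.IsHomogeneous n)
    (hF0 : F ≠ 0) (h : G ∣ F) : G.IsHomogeneous G.totalDegree := by
  obtain ⟨Q, rfl⟩ := h
  have hG0 : G ≠ 0 := left_ne_zero_of_mul hF0
  have hK0 : Q ≠ 0 := right_ne_zero_of_mul hF0
  have hle : ∀ P : MvPolynomial σ K, P ≠ 0 → (P : MvPowerSeries σ K).order ≤ P.totalDegree := by
    intro P hP
    obtain ⟨d, hd⟩ := MvPolynomial.ne_zero_iff.1 hP
    have h1 : (P : MvPowerSeries σ K).order ≤ (d.degree : ℕ∞) :=
      MvPowerSeries.order_le (by simpa using hd)
    refine h1.trans ?_
    have h2 : d.degree ≤ P.totalDegree := by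
      have := MvPolynomial.le_totalDegree (p := P) (s := d) (MvPolynomial.mem_support_iff.2 hd)
      simpa [Finsupp.degree_apply, Finsupp.sum] using this
    exact_mod_cast h2
  have hmul : ((G * Q : MvPolynomial σ K) : MvPowerSeries σ K).order =
      (G : MvPowerSeries σ K).order + (Q : MvPowerSeries σ K).order := by
    rw [MvPolynomial.coe_mul, MvPowerSeries.order_mul]
  have hFo : (n : ℕ∞) ≤ ((G * Q : MvPolynomial σ K) : MvPowerSeries σ K).order := by
    apply MvPowerSeries.nat_le_order
    intro d hd
    rw [MvPolynomial.coeff_coe]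
    by_contra hne
    have := hF hne
    have h' : d.degree = n := by rw [← this, Finsupp.degree_eq_weight_one]; rfl
    omega
  have hT : (G * Q).totalDegree = n := hF.totalDegree hF0
  rw [MvPolynomial.totalDegree_mul_of_isDomain hG0 hK0] at hT
  have hGo := hle G hG0
  have hKo := hle Q hK0
  rw [hmul] at hFo
  intro d hd
  have h1 : (G : MvPowerSeries σ K).order ≤ (d.degree : ℕ∞) :=
      MvPowerSeries.order_le (by simpa using hd)
  have h2 : d.degree ≤ G.totalDegree := by
      have := MvPolynomial.le_totalDegree (p := G) (s := d) (MvPolynomial.mem_support_iff.2 hd)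
      simpa [Finsupp.degree_apply, Finsupp.sum] using this
  have h3 : (n : ℕ∞) ≤ (d.degree : ℕ∞) + (Q.totalDegree : ℕ∞) := hFo.trans (add_le_add h1 hKo)
  have h4 : n ≤ d.degree + Q.totalDegree := by exact_mod_cast h3
  have h5 : d.degree = G.totalDegree := by omega
  rw [← h5, Finsupp.degree_eq_weight_one]
  rfl

/-- A nonzero tuple of homogeneous polynomials of one degree is a common factor times a reduced
tuple. -/
theorem exists_reduced (Φ : Fin (N + 1) → MvPolynomial (Fin (N + 1)) K) (D : ℕ)
    (hΦ : ∀ i, (Φ i).IsHomogeneous D) (h0 : ∃ i, Φ i ≠ 0) :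
    ∃ (c : MvPolynomial (Fin (N + 1)) K) (g : RatMap K N), c ≠ 0 ∧ ∀ i, Φ i = c * g.poly i := by
  classical
  let _ : NormalizedGCDMonoid (MvPolynomial (Fin (N + 1)) K) := Classical.arbitrary _
  obtain ⟨g, hg, hg1⟩ := Finset.extract_gcd Φ (Finset.univ_nonempty (α := Fin (N + 1)))
  set c := Finset.univ.gcd Φ with hc
  have hc0 : c ≠ 0 := by
    obtain ⟨i, hi⟩ := h0
    intro h
    apply hi
    rw [hg i (Finset.mem_univ i), h, zero_mul]
  have hcD : c.totalDegree ≤ D := by
    obtain ⟨i, hi⟩ := h0
    have h1 := hg i (Finset.mem_univ i)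
    have h2 : c * g i ≠ 0 := by rw [← h1]; exact hi
    have h3 : (c * g i).totalDegree = D := by rw [← h1]; exact (hΦ i).totalDegree hi
    rw [MvPolynomial.totalDegree_mul_of_isDomain (left_ne_zero_of_mul h2)
      (right_ne_zero_of_mul h2)] at h3
    omega
  refine ⟨c, ⟨g, D - c.totalDegree, ?_, ?_⟩, hc0, fun i => hg i (Finset.mem_univ i)⟩
  · intro i
    by_cases hi : g i = 0
    · rw [hi]; exact isHomogeneous_zero _ _ _
    · have h1 := hg i (Finset.mem_univ i)
      have h2 : Φ i ≠ 0 := by rw [h1]; exact mul_ne_zero hc0 hi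
      have h3 : (c * g i).totalDegree = D := by rw [← h1]; exact (hΦ i).totalDegree h2
      rw [MvPolynomial.totalDegree_mul_of_isDomain hc0 hi] at h3
      have h4 := homog_of_dvd (hΦ i) h2 (Dvd.intro_left c h1.symm)
      rwa [show D - c.totalDegree = (g i).totalDegree by omega]
  · intro p hp
    have : p ∣ Finset.univ.gcd g := Finset.dvd_gcd fun i _ => hp i
    rw [hg1] at this
    exact isUnit_of_dvd_one this

theorem subst_homogeneous (f : RatMap K N) (n : ℕ) (i : Fin (N + 1)) :
    (f.subst n i).IsHomogeneous (f.degree ^ n) := by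
  induction n generalizing i with
  | zero => simpa [RatMap.subst] using isHomogeneous_X K i
  | succ n ih =>
    rw [RatMap.subst, pow_succ']
    have := (f.homogeneous i).aeval (f.subst n) (fun j => ih j)
    rw [mul_comm]
    simpa [aeval_eq_bind₁, mul_comm] using this

end Pool.Agent.K9h85.DG
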