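import Mathlib

/-!
The rational parametrisation of triples of points `(x₁, y₁), (x₂, y₂), (x₃, y₃)` with
`y₁² - x₁³ = y₂² - x₂³ = y₃² - x₃³`, up to the scaling `(x, y) ↦ (μ² x, μ³ y)`, by
`[x₁ (y₁ - y₃) : x₂ (y₁ - y₃) : x₃ (y₁ - y₃) : x₁ (y₁ - y₂)]`.
-/

set_option autoImplicit false

namespace Pool.Agent.K9h85.DG

section ring

variable {A : Type*} [CommRing A]

/-- The coordinates of a triple of points. -/
def invT (x1 x2 x3 y1 y2 y3 : A) : Fin 4 → A :=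
  ![x1 * (y1 - y3), x2 * (y1 - y3), x3 * (y1 - y3), x1 * (y1 - y2)]

def pN (X : Fin 4 → A) : A :=
  X 3 * (X 0 ^ 3 - X 2 ^ 3) - X 0 * (X 0 ^ 3 - X 1 ^ 3)

def pM (X : Fin 4 → A) : A := X 3 * (X 3 - X 0) * X 0 * pN X

def px1 (X : Fin 4 → A) : A := 4 * X 0 * pM X
def px2 (X : Fin 4 → A) : A := 4 * X 1 * pM X
def px3 (X : Fin 4 → A) : A := 4 * X 2 * pM X

def py1 (X : Fin 4 → A) : A :=
  4 * pM X * ((X 3 - X 0) * X 0 * (X 0 ^ 3 - X 1 ^ 3) + pN X * X 3)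
def py2 (X : Fin 4 → A) : A :=
  4 * pM X * ((X 3 - X 0) * X 0 * (X 0 ^ 3 - X 1 ^ 3) - pN X * X 3)
def py3 (X : Fin 4 → A) : A :=
  4 * pM X * (X 3 * (X 3 - X 0) * (X 0 ^ 3 - X 2 ^ 3) - pN X * X 0)

theorem p_eq12 (X : Fin 4 → A) : py1 X ^ 2 - px1 X ^ 3 = py2 X ^ 2 - px2 X ^ 3 := by
  simp only [py1, py2, px1, px2, pM, pN]
  ring

theorem p_eq13 (X : Fin 4 → A) : py1 X ^ 2 - px1 X ^ 3 = py3 X ^ 2 - px3 X ^ 3 := by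
  simp only [py1, py3, px1, px3, pM, pN]
  ring

theorem invT_p (X : Fin 4 → A) (i : Fin 4) :
    invT (px1 X) (px2 X) (px3 X) (py1 X) (py2 X) (py3 X) i = (32 * pM X ^ 2 * pN X * X 0) * X i := by
  fin_cases i <;> simp [invT, px1, px2, px3, py1, py2, py3, pM, pN] <;> ring

/-- numerator of the abscissa of the sum (the denominator is `(xa - xb)²`) -/
def uu (xa ya xb yb : A) : A := (ya - yb) ^ 2 - (xa + xb) * (xa - xb) ^ 2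

/-- numerator of the ordinate of the sum (the denominator is `(xa - xb)³`) -/
def vv (xa ya xb yb : A) : A :=
  -((xa - xb) ^ 3 * ya) - (ya - yb) * (uu xa ya xb yb - (xa - xb) ^ 2 * xa)

/-- The step `(P₁, P₂, P₃) ↦ (P₁, P₁ + P₂, P₂ + P₃)` on triples, before `invT`, scaled by
`z = (x₁ - x₂) (x₂ - x₃)`. -/
def stepP (x1 x2 x3 y1 y2 y3 : A) : Fin 4 → A :=
  invT (((x1 - x2) * (x2 - x3)) ^ 2 * x1) ((x2 - x3) ^ 2 * uu x1 y1 x2 y2)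
    ((x1 - x2) ^ 2 * uu x2 y2 x3 y3)
    (((x1 - x2) * (x2 - x3)) ^ 3 * y1) ((x2 - x3) ^ 3 * vv x1 y1 x2 y2)
    ((x1 - x2) ^ 3 * vv x2 y2 x3 y3)

/-- The step `(P₁, P₂, P₃) ↦ (P₁, P₁ + P₂, P₂ + P₃)` in the four coordinates. -/
def stepT (X : Fin 4 → A) : Fin 4 → A :=
  stepP (px1 X) (px2 X) (px3 X) (py1 X) (py2 X) (py3 X)

/-- The step backwards `(P₁, P₂, P₃) ↦ (P₁, Q₂, Q₃)`, `Q₂ = P₂ - P₁`, `Q₃ = P₃ - Q₂` on triples. -/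
def backP (x1 x2 x3 y1 y2 y3 : A) : Fin 4 → A :=
  invT (((x2 - x1) * ((x2 - x1) ^ 2 * x3 - uu x2 y2 x1 (-y1))) ^ 2 * x1)
    (((x2 - x1) ^ 2 * x3 - uu x2 y2 x1 (-y1)) ^ 2 * uu x2 y2 x1 (-y1))
    (uu ((x2 - x1) ^ 2 * x3) ((x2 - x1) ^ 3 * y3) (uu x2 y2 x1 (-y1)) (-vv x2 y2 x1 (-y1)))
    (((x2 - x1) * ((x2 - x1) ^ 2 * x3 - uu x2 y2 x1 (-y1))) ^ 3 * y1)
    (((x2 - x1) ^ 2 * x3 - uu x2 y2 x1 (-y1)) ^ 3 * vv x2 y2 x1 (-y1))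
    (vv ((x2 - x1) ^ 2 * x3) ((x2 - x1) ^ 3 * y3) (uu x2 y2 x1 (-y1)) (-vv x2 y2 x1 (-y1)))

def backT (X : Fin 4 → A) : Fin 4 → A :=
  backP (px1 X) (px2 X) (px3 X) (py1 X) (py2 X) (py3 X)

end ring

section map

variable {A B : Type*} [CommRing A] [CommRing B] (φ : A →+* B)

theorem map_invT (x1 x2 x3 y1 y2 y3 : A) (i : Fin 4) :
    φ (invT x1 x2 x3 y1 y2 y3 i) = invT (φ x1) (φ x2) (φ x3) (φ y1) (φ y2) (φ y3) i := by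
  fin_cases i <;> simp [invT]

theorem map_uu (xa ya xb yb : A) : φ (uu xa ya xb yb) = uu (φ xa) (φ ya) (φ xb) (φ yb) := by
  simp [uu]

theorem map_vv (xa ya xb yb : A) : φ (vv xa ya xb yb) = vv (φ xa) (φ ya) (φ xb) (φ yb) := by
  simp [vv, map_uu]

theorem map_pN (X : Fin 4 → A) : φ (pN X) = pN (fun i => φ (X i)) := by simp [pN]
theorem map_pM (X : Fin 4 → A) : φ (pM X) = pM (fun i => φ (X i)) := by simp [pM, map_pN]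
theorem map_px1 (X : Fin 4 → A) : φ (px1 X) = px1 (fun i => φ (X i)) := by simp [px1, map_pM, map_ofNat]
theorem map_px2 (X : Fin 4 → A) : φ (px2 X) = px2 (fun i => φ (X i)) := by simp [px2, map_pM, map_ofNat]
theorem map_px3 (X : Fin 4 → A) : φ (px3 X) = px3 (fun i => φ (X i)) := by simp [px3, map_pM, map_ofNat]
theorem map_py1 (X : Fin 4 → A) : φ (py1 X) = py1 (fun i => φ (X i)) := by
  simp [py1, map_pM, map_pN, map_ofNat]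
theorem map_py2 (X : Fin 4 → A) : φ (py2 X) = py2 (fun i => φ (X i)) := by
  simp [py2, map_pM, map_pN, map_ofNat]
theorem map_py3 (X : Fin 4 → A) : φ (py3 X) = py3 (fun i => φ (X i)) := by
  simp [py3, map_pM, map_pN, map_ofNat]

theorem map_stepP (x1 x2 x3 y1 y2 y3 : A) (i : Fin 4) :
    φ (stepP x1 x2 x3 y1 y2 y3 i) = stepP (φ x1) (φ x2) (φ x3) (φ y1) (φ y2) (φ y3) i := by
  simp [stepP, map_invT, map_uu, map_vv]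

theorem map_stepT (X : Fin 4 → A) (i : Fin 4) :
    φ (stepT X i) = stepT (fun j => φ (X j)) i := by
  simp [stepT, map_stepP, map_px1, map_px2, map_px3, map_py1, map_py2, map_py3]

theorem map_backP (x1 x2 x3 y1 y2 y3 : A) (i : Fin 4) :
    φ (backP x1 x2 x3 y1 y2 y3 i) = backP (φ x1) (φ x2) (φ x3) (φ y1) (φ y2) (φ y3) i := by
  simp [backP, map_invT, map_uu, map_vv]

theorem map_backT (X : Fin 4 → A) (i : Fin 4) :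
    φ (backT X i) = backT (fun j => φ (X j)) i := by
  simp [backT, map_backP, map_px1, map_px2, map_px3, map_py1, map_py2, map_py3]

end map

section scaling

variable {A : Type*} [CommRing A]

theorem uu_smul (m xa ya xb yb : A) :
    uu (m ^ 2 * xa) (m ^ 3 * ya) (m ^ 2 * xb) (m ^ 3 * yb) = m ^ 6 * uu xa ya xb yb := by
  simp only [uu]; ring

theorem vv_smul (m xa ya xb yb : A) :
    vv (m ^ 2 * xa) (m ^ 3 * ya) (m ^ 2 * xb) (m ^ 3 * yb) = m ^ 9 * vv xa ya xb yb := by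
  simp only [vv, uu]; ring

theorem invT_smul (m x1 x2 x3 y1 y2 y3 : A) (i : Fin 4) :
    invT (m ^ 2 * x1) (m ^ 2 * x2) (m ^ 2 * x3) (m ^ 3 * y1) (m ^ 3 * y2) (m ^ 3 * y3) i =
      m ^ 5 * invT x1 x2 x3 y1 y2 y3 i := by
  fin_cases i <;> simp [invT] <;> ring

theorem stepP_smul (m x1 x2 x3 y1 y2 y3 : A) (i : Fin 4) :
    stepP (m ^ 2 * x1) (m ^ 2 * x2) (m ^ 2 * x3) (m ^ 3 * y1) (m ^ 3 * y2) (m ^ 3 * y3) i =
      m ^ 25 * stepP x1 x2 x3 y1 y2 y3 i := by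
  have h := invT_smul (m ^ 5) (((x1 - x2) * (x2 - x3)) ^ 2 * x1) ((x2 - x3) ^ 2 * uu x1 y1 x2 y2)
    ((x1 - x2) ^ 2 * uu x2 y2 x3 y3)
    (((x1 - x2) * (x2 - x3)) ^ 3 * y1) ((x2 - x3) ^ 3 * vv x1 y1 x2 y2)
    ((x1 - x2) ^ 3 * vv x2 y2 x3 y3) i
  simp only [stepP]
  rw [uu_smul, uu_smul, vv_smul, vv_smul]
  refine Eq.trans ?_ (h.trans (by ring))
  congr 1 <;> ring

theorem backP_smul (m x1 x2 x3 y1 y2 y3 : A) (i : Fin 4) :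
    backP (m ^ 2 * x1) (m ^ 2 * x2) (m ^ 2 * x3) (m ^ 3 * y1) (m ^ 3 * y2) (m ^ 3 * y3) i =
      m ^ 45 * backP x1 x2 x3 y1 y2 y3 i := by
  have h := invT_smul (m ^ 9) (((x2 - x1) * ((x2 - x1) ^ 2 * x3 - uu x2 y2 x1 (-y1))) ^ 2 * x1)
    (((x2 - x1) ^ 2 * x3 - uu x2 y2 x1 (-y1)) ^ 2 * uu x2 y2 x1 (-y1))
    (uu ((x2 - x1) ^ 2 * x3) ((x2 - x1) ^ 3 * y3) (uu x2 y2 x1 (-y1)) (-vv x2 y2 x1 (-y1)))
    (((x2 - x1) * ((x2 - x1) ^ 2 * x3 - uu x2 y2 x1 (-y1))) ^ 3 * y1)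
    (((x2 - x1) ^ 2 * x3 - uu x2 y2 x1 (-y1)) ^ 3 * vv x2 y2 x1 (-y1))
    (vv ((x2 - x1) ^ 2 * x3) ((x2 - x1) ^ 3 * y3) (uu x2 y2 x1 (-y1)) (-vv x2 y2 x1 (-y1))) i
  have e1 : -(m ^ 3 * y1) = m ^ 3 * -y1 := by ring
  simp only [backP]
  rw [e1, uu_smul, vv_smul]
  have e2 : (m ^ 2 * x2 - m ^ 2 * x1) ^ 2 * (m ^ 2 * x3) = (m ^ 3) ^ 2 * ((x2 - x1) ^ 2 * x3) := by
    ring
  have e3 : (m ^ 2 * x2 - m ^ 2 * x1) ^ 3 * (m ^ 3 * y3) = (m ^ 3) ^ 3 * ((x2 - x1) ^ 3 * y3) := by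
    ring
  have e4 : m ^ 6 * uu x2 y2 x1 (-y1) = (m ^ 3) ^ 2 * uu x2 y2 x1 (-y1) := by ring
  have e5 : -(m ^ 9 * vv x2 y2 x1 (-y1)) = (m ^ 3) ^ 3 * -vv x2 y2 x1 (-y1) := by ring
  rw [e2, e3, e5, e4, uu_smul, vv_smul]
  refine Eq.trans ?_ (h.trans (by ring))
  congr 1 <;> ring

/-- The parametrisation inverts `invT` up to scaling. -/
theorem p_invT (k x1 x2 x3 y1 y2 y3 : A) (h12 : y1 ^ 2 - x1 ^ 3 = y2 ^ 2 - x2 ^ 3)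
    (h13 : y1 ^ 2 - x1 ^ 3 = y3 ^ 2 - x3 ^ 3) (X : Fin 4 → A)
    (hX : ∀ i, X i = k * invT x1 x2 x3 y1 y2 y3 i)
    (m : A) (hm : m = -2 * k ^ 4 * x1 ^ 2 * (y1 - y3) ^ 3 * (y1 - y2) * (y2 - y3)) :
    px1 X = m ^ 2 * x1 ∧ px2 X = m ^ 2 * x2 ∧ px3 X = m ^ 2 * x3 ∧
      py1 X = m ^ 3 * y1 ∧ py2 X = m ^ 3 * y2 ∧ py3 X = m ^ 3 * y3 := by
  have h0 : X 0 = k * (x1 * (y1 - y3)) := hX 0
  have h1 : X 1 = k * (x2 * (y1 - y3)) := hX 1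
  have h2 : X 2 = k * (x3 * (y1 - y3)) := hX 2
  have h3 : X 3 = k * (x1 * (y1 - y2)) := hX 3
  have c1 : X 0 ^ 3 - X 1 ^ 3 = (k * (y1 - y3)) ^ 3 * ((y1 - y2) * (y1 + y2)) := by
    rw [h0, h1]
    linear_combination (k * (y1 - y3)) ^ 3 * (-h12)
  have c2 : X 0 ^ 3 - X 2 ^ 3 = (k * (y1 - y3)) ^ 3 * ((y1 - y3) * (y1 + y3)) := by
    rw [h0, h2]
    linear_combination (k * (y1 - y3)) ^ 3 * (-h13)
  have cN : pN X = - (k ^ 4 * x1 * (y1 - y2) * (y1 - y3) ^ 4 * (y2 - y3)) := by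
    rw [pN, c1, c2, h0, h3]
    ring
  have cB : X 3 - X 0 = - (k * x1 * (y2 - y3)) := by rw [h0, h3]; ring
  have cM : pM X = k ^ 7 * x1 ^ 4 * (y1 - y2) ^ 2 * (y1 - y3) ^ 5 * (y2 - y3) ^ 2 := by
    rw [pM, cB, cN, h0, h3]
    ring
  refine ⟨?_, ?_, ?_, ?_, ?_, ?_⟩
  · rw [px1, cM, h0, hm]; ring
  · rw [px2, cM, h1, hm]; ring
  · rw [px3, cM, h2, hm]; ring
  · rw [py1, cM, cB, c1, cN, h0, h3, hm]; ring
  · rw [py2, cM, cB, c1, cN, h0, h3, hm]; ring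
  · rw [py3, cM, cB, c2, cN, h0, h3, hm]; ring

end scaling

end Pool.Agent.K9h85.DG
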