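import Mathlib
import Pool.Agent.K9h85.DG.Formula

/-!
The group law on the curves `y² = x³ + c`.
-/

set_option autoImplicit false
set_option linter.unusedSectionVars false
set_option linter.unusedSimpArgs false

namespace Pool.Agent.K9h85.DG

open WeierstrassCurve

variable {F : Type*} [Field F] [DecidableEq F] {c : F}

/-- The curve `y² = x³ + c`. -/
def E (c : F) : WeierstrassCurve.Affine F := ⟨0, 0, 0, 0, c⟩

theorem E_equation (x y : F) : (E c).Equation x y ↔ y ^ 2 = x ^ 3 + c := by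
  rw [Affine.equation_iff]
  simp [E]

theorem E_nonsingular (h2 : (2 : F) ≠ 0) (h3 : (3 : F) ≠ 0) (x y : F) :
    (E c).Nonsingular x y ↔ y ^ 2 = x ^ 3 + c ∧ (x ≠ 0 ∨ y ≠ 0) := by
  rw [Affine.nonsingular_iff, E_equation]
  simp only [E]
  refine and_congr_right fun _ => ?_
  have h1 : (0 * y ≠ 3 * x ^ 2 + 2 * 0 * x + 0) ↔ x ≠ 0 := by
    rw [not_iff_not]
    constructor
    · intro h
      have : (3 : F) * x ^ 2 = 0 := by linear_combination -h
      simpa [h3] using this
    · rintro rfl; ring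
  have h4 : (y ≠ -y - 0 * x - 0) ↔ y ≠ 0 := by
    rw [not_iff_not]
    constructor
    · intro h
      have : (2 : F) * y = 0 := by linear_combination h
      simpa [h2] using this
    · rintro rfl; ring
  rw [h1, h4]

/-- abscissa (junk value `0` at infinity) -/
def xc : (E c).Point → F
  | .zero => 0
  | .some x _ _ => x

/-- ordinate (junk value `0` at infinity) -/
def yc : (E c).Point → F
  | .zero => 0
  | .some _ y _ => y

@[simp] theorem xc_some {x y : F} (h : (E c).Nonsingular x y) : xc (.some x y h) = x := rfl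
@[simp] theorem yc_some {x y : F} (h : (E c).Nonsingular x y) : yc (.some x y h) = y := rfl

theorem eqn {P : (E c).Point} (hP : P ≠ 0) : yc P ^ 2 = xc P ^ 3 + c := by
  rcases P with _ | ⟨x, y, h⟩
  · exact (hP rfl).elim
  · exact (E_equation x y).1 h.1

theorem neg_ne {P : (E c).Point} (hP : P ≠ 0) : -P ≠ 0 := by simpa using hP

@[simp] theorem xc_neg (P : (E c).Point) : xc (-P) = xc P := by
  rcases P with _ | ⟨x, y, h⟩
  · rfl
  · rfl

@[simp] theorem yc_neg (P : (E c).Point) : yc (-P) = -yc P := by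
  rcases P with _ | ⟨x, y, h⟩
  · simp only [yc, neg_zero]
    rfl
  · rw [Affine.Point.neg_some]
    simp [yc, Affine.negY, E]

theorem ext_pt {P Q : (E c).Point} (hP : P ≠ 0) (hQ : Q ≠ 0) (hx : xc P = xc Q)
    (hy : yc P = yc Q) : P = Q := by
  rcases P with _ | ⟨x, y, h⟩
  · exact (hP rfl).elim
  · rcases Q with _ | ⟨x', y', h'⟩
    · exact (hQ rfl).elim
    · simp only [xc_some, yc_some] at hx hy
      subst hx hy
      rfl

theorem eq_or_neg {P Q : (E c).Point} (hP : P ≠ 0) (hQ : Q ≠ 0) (hx : xc P = xc Q) :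
    P = Q ∨ P = -Q := by
  have h1 := eqn hP
  have h2 := eqn hQ
  have h3 : (yc P - yc Q) * (yc P + yc Q) = 0 := by
    rw [hx] at h1
    linear_combination h1 - h2
  rcases mul_eq_zero.1 h3 with h | h
  · exact Or.inl (ext_pt hP hQ hx (by linear_combination h))
  · exact Or.inr (ext_pt hP (neg_ne hQ) (by simpa using hx) (by
      rw [yc_neg]; linear_combination h))

/-- The chord formula. -/
theorem add_of_ne {P Q : (E c).Point} (hP : P ≠ 0) (hQ : Q ≠ 0) (hx : xc P ≠ xc Q) :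
    P + Q ≠ 0 ∧ (xc P - xc Q) ^ 2 * xc (P + Q) = uu (xc P) (yc P) (xc Q) (yc Q) ∧
      (xc P - xc Q) ^ 3 * yc (P + Q) = vv (xc P) (yc P) (xc Q) (yc Q) := by
  rcases P with _ | ⟨x, y, h⟩
  · exact (hP rfl).elim
  rcases Q with _ | ⟨x', y', h'⟩
  · exact (hQ rfl).elim
  simp only [xc_some, yc_some] at hx ⊢
  have hne : x - x' ≠ 0 := sub_ne_zero.2 hx
  rw [Affine.Point.add_of_X_ne hx]
  refine ⟨Affine.Point.some_ne_zero _, ?_, ?_⟩
  · rw [xc_some, Affine.slope_of_X_ne hx]
    simp only [Affine.addX, E, uu]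
    field_simp
    ring
  · rw [yc_some, Affine.slope_of_X_ne hx]
    simp only [Affine.addY, Affine.negAddY, Affine.negY, Affine.addX, E, uu, vv]
    field_simp
    ring

theorem add_self {P : (E c).Point} (h2 : (2 : F) ≠ 0) (hP : P ≠ 0) (hy : yc P ≠ 0) :
    P + P ≠ 0 ∧ 4 * yc P ^ 2 * xc (P + P) = xc P ^ 4 - 8 * c * xc P := by
  rcases P with _ | ⟨x, y, h⟩
  · exact (hP rfl).elim
  simp only [xc_some, yc_some] at hy ⊢
  have he := (E_equation x y).1 h.1
  have hy' : y ≠ (E c).negY x y := by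
    intro h
    apply hy
    simp only [Affine.negY, E] at h
    have : (2 : F) * y = 0 := by linear_combination h
    simpa [h2] using this
  rw [Affine.Point.add_self_of_Y_ne hy']
  refine ⟨Affine.Point.some_ne_zero _, ?_⟩
  rw [xc_some, Affine.slope_of_Y_ne rfl hy']
  simp only [Affine.negY, Affine.addX, E]
  have h4 : (2 : F) * y ≠ 0 := mul_ne_zero h2 hy
  have h5 : y - (-y - 0 * x - 0) = 2 * y := by ring
  rw [h5]
  field_simp
  have hc : c = y ^ 2 - x ^ 3 := by linear_combination -he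
  rw [hc]
  ring

theorem add_self_eq_zero {P : (E c).Point} (hy : yc P = 0) : P + P = 0 := by
  rcases P with _ | ⟨x, y, h⟩
  · exact add_zero _
  · simp only [yc_some] at hy
    apply Affine.Point.add_self_of_Y_eq
    simp [Affine.negY, E, hy]

/-- The sum of the abscissae of `P + Q` and `P - Q`. -/
theorem xc_add_sub {P Q : (E c).Point} (hP : P ≠ 0) (hQ : Q ≠ 0) (hx : xc P ≠ xc Q) :
    (xc P - xc Q) ^ 2 * (xc (P + Q) + xc (P - Q)) =
      2 * (xc P * xc Q * (xc P + xc Q) + 2 * c) := by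
  have h1 := add_of_ne hP hQ hx
  have h2 := add_of_ne hP (neg_ne hQ) (by simpa using hx)
  rw [← sub_eq_add_neg] at h2
  simp only [xc_neg, yc_neg, uu] at h1 h2
  linear_combination h1.2.1 + h2.2.1 + 2 * eqn hP + 2 * eqn hQ

/-- The product of the abscissae of `P + Q` and `P - Q`. -/
theorem xc_mul_sub {P Q : (E c).Point} (hP : P ≠ 0) (hQ : Q ≠ 0) (hx : xc P ≠ xc Q) :
    (xc P - xc Q) ^ 2 * (xc (P + Q) * xc (P - Q)) =
      (xc P * xc Q) ^ 2 - 4 * c * (xc P + xc Q) := by
  have h1 := (add_of_ne hP hQ hx).2.1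
  have h2 := (add_of_ne hP (neg_ne hQ) (by simpa using hx)).2.1
  rw [← sub_eq_add_neg] at h2
  simp only [xc_neg, yc_neg, uu] at h1 h2
  have hne : (xc P - xc Q) ^ 2 ≠ 0 := pow_ne_zero _ (sub_ne_zero.2 hx)
  apply mul_left_cancel₀ hne
  have e1 := eqn hP
  have e2 := eqn hQ
  have h3 : (xc P - xc Q) ^ 2 * ((xc P - xc Q) ^ 2 * (xc (P + Q) * xc (P - Q))) =
      ((xc P - xc Q) ^ 2 * xc (P + Q)) * ((xc P - xc Q) ^ 2 * xc (P - Q)) := by ring
  rw [h3, h1, h2]
  have h4 : (yc P - yc Q) ^ 2 * (yc P + yc Q) ^ 2 = (xc P ^ 3 - xc Q ^ 3) ^ 2 := by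
    have : (yc P - yc Q) * (yc P + yc Q) = xc P ^ 3 - xc Q ^ 3 := by
      linear_combination e1 - e2
    rw [← this]; ring
  have h5 : (yc P - yc Q) ^ 2 + (yc P + yc Q) ^ 2 = 2 * (xc P ^ 3 + xc Q ^ 3 + 2 * c) := by
    linear_combination 2 * e1 + 2 * e2
  linear_combination h4 - (xc P + xc Q) * (xc P - xc Q) ^ 2 * h5

end Pool.Agent.K9h85.DG
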