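import Mathlib

/-!
Heights of rational functions in one variable.
-/

set_option autoImplicit false

namespace Pool.Agent.K9h85.DG

open Polynomial

variable {K : Type*} [Field K]

/-- The height (degree) of a rational function. -/
noncomputable def ht (r : RatFunc K) : ℕ := max r.num.natDegree r.denom.natDegree

/-- the inclusion of polynomials -/
noncomputable abbrev ι : K[X] →+* RatFunc K := algebraMap K[X] (RatFunc K)

theorem ι_inj : Function.Injective (ι : K[X] →+* RatFunc K) := RatFunc.algebraMap_injective K

theorem ι_ne {p : K[X]} (hp : p ≠ 0) : ι p ≠ 0 := RatFunc.algebraMap_ne_zero hp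

theorem ι_eq {p q : K[X]} (h : (ι p : RatFunc K) = ι q) : p = q := ι_inj h

theorem exists_rep (r : RatFunc K) : ∃ p q : K[X], q ≠ 0 ∧ IsCoprime p q ∧ r * ι q = ι p ∧
    ht r = max p.natDegree q.natDegree := by
  refine ⟨r.num, r.denom, r.denom_ne_zero, r.isCoprime_num_denom, ?_, rfl⟩
  have := RatFunc.num_div_denom r
  have h : (ι r.denom : RatFunc K) ≠ 0 := ι_ne r.denom_ne_zero
  rw [div_eq_iff h] at this
  exact this.symm

/-- Two reduced representations have the same degrees. -/
theorem ht_eq {r : RatFunc K} {p q : K[X]} (hpq : IsCoprime p q) (hq : q ≠ 0)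
    (h : r * ι q = ι p) : ht r = max p.natDegree q.natDegree := by
  obtain ⟨p', q', hq', hc', h', ht'⟩ := exists_rep r
  rw [ht']
  have e : p * q' = p' * q := by
    apply ι_eq
    rw [map_mul, map_mul, ← h, ← h']
    ring
  have d1 : q ∣ q' := by
    have : q ∣ p * q' := ⟨p', by rw [e]; ring⟩
    exact hpq.symm.dvd_of_dvd_mul_left this
  have d2 : q' ∣ q := by
    have : q' ∣ p' * q := ⟨p, by rw [← e]; ring⟩
    exact hc'.symm.dvd_of_dvd_mul_left this
  have e1 : q.natDegree = q'.natDegree := natDegree_eq_of_degree_eq
    (degree_eq_degree_of_associated (associated_of_dvd_dvd d1 d2))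
  by_cases hp : p = 0
  · subst hp
    rw [zero_mul] at e
    have hp' : p' = 0 := by
      rcases mul_eq_zero.1 e.symm with h | h
      · exact h
      · exact (hq h).elim
    rw [hp', e1]
  · have hp' : p' ≠ 0 := by
      rintro rfl
      rw [zero_mul] at e
      exact mul_ne_zero hp hq' e
    have := congrArg natDegree e
    rw [natDegree_mul hp hq', natDegree_mul hp' hq] at this
    omega

theorem ht_le {r : RatFunc K} {p q : K[X]} (hq : q ≠ 0)
    (h : r * ι q = ι p) : ht r ≤ max p.natDegree q.natDegree := by
  obtain ⟨p', q', hq', hc', h', ht'⟩ := exists_rep r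
  rw [ht']
  have e : p * q' = p' * q := by
    apply ι_eq
    rw [map_mul, map_mul, ← h, ← h']
    ring
  have d2 : q' ∣ q := by
    have : q' ∣ p' * q := ⟨p, by rw [← e]; ring⟩
    exact hc'.symm.dvd_of_dvd_mul_left this
  have e1 : q'.natDegree ≤ q.natDegree := natDegree_le_of_dvd d2 hq
  by_cases hp : p = 0
  · subst hp
    rw [zero_mul] at e
    have hp' : p' = 0 := by
      rcases mul_eq_zero.1 e.symm with h | h
      · exact h
      · exact (hq h).elim
    rw [hp']
    simp [e1]
  · have d1 : p' ∣ p := by
      have : p' ∣ p * q' := ⟨q, e⟩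
      exact hc'.dvd_of_dvd_mul_right this
    have := natDegree_le_of_dvd d1 hp
    omega

theorem ht_mul_le (r s : RatFunc K) : ht (r * s) ≤ ht r + ht s := by
  obtain ⟨p, q, hq, -, h, e⟩ := exists_rep r
  obtain ⟨p', q', hq', -, h', e'⟩ := exists_rep s
  have h1 : (r * s) * ι (q * q') = ι (p * p') := by
    rw [map_mul, map_mul, ← h, ← h']; ring
  refine (ht_le (mul_ne_zero hq hq') h1).trans ?_
  have a1 := natDegree_mul_le (p := p) (q := p')
  have a2 := natDegree_mul_le (p := q) (q := q')
  rw [e, e']
  omega

theorem ht_cube (r : RatFunc K) : ht (r ^ 3) = 3 * ht r := by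
  obtain ⟨p, q, hq, hc, h, e⟩ := exists_rep r
  have h1 : r ^ 3 * ι (q ^ 3) = ι (p ^ 3) := by
    rw [map_pow, map_pow, ← h]; ring
  rw [ht_eq hc.pow (pow_ne_zero _ hq) h1, e, natDegree_pow, natDegree_pow]
  omega

theorem ht_zero : ht (0 : RatFunc K) = 0 := by simp [ht]

theorem ht_C (a : K) : ht (RatFunc.C a) = 0 := by
  rcases eq_or_ne a 0 with rfl | ha
  · simp [ht]
  · have : (RatFunc.C a : RatFunc K) * ι 1 = ι (C a) := by
      rw [map_one, mul_one]; exact (RatFunc.algebraMap_C a).symm
    rw [ht_eq isCoprime_one_right one_ne_zero this]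
    simp

theorem ht_X : ht (RatFunc.X : RatFunc K) = 1 := by
  have : (RatFunc.X : RatFunc K) * ι 1 = ι X := by
    rw [map_one, mul_one]; exact RatFunc.algebraMap_X.symm
  rw [ht_eq isCoprime_one_right one_ne_zero this]
  simp

/-- The degree of the coordinates of the symmetric square. -/
theorem max_natDegree_sym {a b c d : K[X]} (hb : b ≠ 0) (hd : d ≠ 0) :
    max a.natDegree b.natDegree + max c.natDegree d.natDegree ≤
      max (b * d).natDegree (max (a * d + b * c).natDegree (a * c).natDegree) := by
  set m := max a.natDegree b.natDegree with hm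
  set n := max c.natDegree d.natDegree with hn
  have ha' : a.natDegree ≤ m := le_max_left _ _
  have hb' : b.natDegree ≤ m := le_max_right _ _
  have hc' : c.natDegree ≤ n := le_max_left _ _
  have hd' : d.natDegree ≤ n := le_max_right _ _
  have h1 : (b * d).coeff (m + n) = b.coeff m * d.coeff n := coeff_mul_add_eq_of_natDegree_le hb' hd'
  have h2 : (a * c).coeff (m + n) = a.coeff m * c.coeff n := coeff_mul_add_eq_of_natDegree_le ha' hc'
  have h3 : (a * d + b * c).coeff (m + n) = a.coeff m * d.coeff n + b.coeff m * c.coeff n := by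
    rw [coeff_add, coeff_mul_add_eq_of_natDegree_le ha' hd', coeff_mul_add_eq_of_natDegree_le hb' hc']
  have k1 : a.coeff m ≠ 0 ∨ b.coeff m ≠ 0 := by
    rcases le_total a.natDegree b.natDegree with h | h
    · right
      rw [hm, max_eq_right h]
      simpa using hb
    · by_cases ha : a = 0
      · right
        have : m = b.natDegree := by rw [hm, ha]; simp
        rw [this]
        simpa using hb
      · left
        rw [hm, max_eq_left h]
        simpa using ha
  have k2 : c.coeff n ≠ 0 ∨ d.coeff n ≠ 0 := by
    rcases le_total c.natDegree d.natDegree with h | h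
    · right
      rw [hn, max_eq_right h]
      simpa using hd
    · by_cases hc : c = 0
      · right
        have : n = d.natDegree := by rw [hn, hc]; simp
        rw [this]
        simpa using hd
      · left
        rw [hn, max_eq_left h]
        simpa using hc
  by_cases A : b.coeff m * d.coeff n = 0
  · by_cases B : a.coeff m * c.coeff n = 0
    · have C : a.coeff m * d.coeff n + b.coeff m * c.coeff n ≠ 0 := by
        rcases k1 with k1 | k1
        · have c0 : c.coeff n = 0 := (mul_eq_zero.1 B).resolve_left k1
          have d0 : d.coeff n ≠ 0 := k2.resolve_left (by simp [c0])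
          rw [c0, mul_zero, add_zero]
          exact mul_ne_zero k1 d0
        · have d0 : d.coeff n = 0 := (mul_eq_zero.1 A).resolve_left k1
          have c0 : c.coeff n ≠ 0 := k2.resolve_right (by simp [d0])
          rw [d0, mul_zero, zero_add]
          exact mul_ne_zero k1 c0
      rw [← h3] at C
      have := le_natDegree_of_ne_zero C
      omega
    · rw [← h2] at B
      have := le_natDegree_of_ne_zero B
      omega
  · rw [← h1] at A
    have := le_natDegree_of_ne_zero A
    omega

/-- If the sum and the product of two rational functions are `F₁ / F₀` and `F₂ / F₀`, then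
the sum of their heights is at most the maximal degree of the `Fᵢ`. -/
theorem ht_add_ht_le {r s : RatFunc K} {F0 F1 F2 : K[X]} (h0 : F0 ≠ 0)
    (h1 : (r + s) * ι F0 = ι F1) (h2 : (r * s) * ι F0 = ι F2) :
    ht r + ht s ≤ max F0.natDegree (max F1.natDegree F2.natDegree) := by
  obtain ⟨a, b, hb, hab, hr, er⟩ := exists_rep r
  obtain ⟨c, d, hd, hcd, hs, es⟩ := exists_rep s
  have e1 : (a * d + b * c) * F0 = b * d * F1 := by
    apply ι_eq
    simp only [map_mul, map_add]
    rw [← h1, ← hr, ← hs]; ring
  have e2 : (a * c) * F0 = b * d * F2 := by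
    apply ι_eq
    simp only [map_mul]
    rw [← h2, ← hr, ← hs]; ring
  -- `b ∣ F0`
  have hbF : b ∣ F0 := by
    have t1 : b ∣ d * F0 := by
      have : b ∣ a * (d * F0) := by
        have : a * (d * F0) = b * (d * F1 - c * F0) := by linear_combination e1
        exact ⟨_, this⟩
      exact hab.symm.dvd_of_dvd_mul_left this
    have t2 : b ∣ c * F0 := by
      have : b ∣ a * (c * F0) := ⟨d * F2, by linear_combination e2⟩
      exact hab.symm.dvd_of_dvd_mul_left this
    obtain ⟨u, v, huv⟩ := hcd
    have : F0 = u * (c * F0) + v * (d * F0) := by linear_combination -F0 * huv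
    rw [this]
    exact dvd_add (Dvd.dvd.mul_left t2 _) (Dvd.dvd.mul_left t1 _)
  obtain ⟨F', rfl⟩ := hbF
  have hF' : F' ≠ 0 := right_ne_zero_of_mul h0
  have f1 : (a * d + b * c) * F' = d * F1 := by
    apply mul_left_cancel₀ hb; linear_combination e1
  have f2 : (a * c) * F' = d * F2 := by
    apply mul_left_cancel₀ hb; linear_combination e2
  have hdF : d ∣ F' := by
    have t1 : d ∣ b * F' := by
      have : d ∣ c * (b * F') := by
        have : c * (b * F') = d * (F1 - a * F') := by linear_combination f1
        exact ⟨_, this⟩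
      exact hcd.symm.dvd_of_dvd_mul_left this
    have t2 : d ∣ a * F' := by
      have : d ∣ c * (a * F') := ⟨F2, by linear_combination f2⟩
      exact hcd.symm.dvd_of_dvd_mul_left this
    obtain ⟨u, v, huv⟩ := hab
    have : F' = u * (a * F') + v * (b * F') := by linear_combination -F' * huv
    rw [this]
    exact dvd_add (Dvd.dvd.mul_left t2 _) (Dvd.dvd.mul_left t1 _)
  obtain ⟨F'', rfl⟩ := hdF
  have hF'' : F'' ≠ 0 := right_ne_zero_of_mul hF'
  have g1 : F1 = (a * d + b * c) * F'' := by
    apply mul_left_cancel₀ hd; linear_combination -f1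
  have g2 : F2 = (a * c) * F'' := by
    apply mul_left_cancel₀ hd; linear_combination -f2
  have key := max_natDegree_sym (a := a) (c := c) hb hd
  rw [er, es]
  refine key.trans ?_
  have m0 : (b * d).natDegree ≤ (b * (d * F'')).natDegree := by
    rw [← mul_assoc]
    exact natDegree_le_of_dvd (Dvd.intro _ rfl) (mul_ne_zero (mul_ne_zero hb hd) hF'')
  have m1 : (a * d + b * c).natDegree ≤ F1.natDegree := by
    rw [g1]
    by_cases h : a * d + b * c = 0
    · simp [h]
    · exact natDegree_le_of_dvd (Dvd.intro _ rfl) (mul_ne_zero h hF'')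
  have m2 : (a * c).natDegree ≤ F2.natDegree := by
    rw [g2]
    by_cases h : a * c = 0
    · simp [h]
    · exact natDegree_le_of_dvd (Dvd.intro _ rfl) (mul_ne_zero h hF'')
  omega

end Pool.Agent.K9h85.DG
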