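import Mathlib
import Pool.Agent.K9h85.DG.Curve
import Pool.Agent.K9h85.DG.Height

/-!
The height is a quadratic form on the points of `y² = x³ + w³` over `K(t)`.
-/

set_option autoImplicit false

namespace Pool.Agent.K9h85.DG

open Polynomial

variable {K : Type*} [Field K]

/-- degree of the duplication -/
theorem ht_double (h2 : (2 : K) ≠ 0) (h3 : (3 : K) ≠ 0) {r s : RatFunc K}
    (h : 4 * (r ^ 3 + 1) * s = r ^ 4 - 8 * r) (hne : r ^ 3 + 1 ≠ 0) : ht s = 4 * ht r := by
  obtain ⟨p, q, hq, hpq, hr, er⟩ := exists_rep r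
  set F := p ^ 4 - 8 * p * q ^ 3 with hF
  set G := 4 * (p ^ 3 * q + q ^ 4) with hG
  have hq' : (ι q : RatFunc K) ≠ 0 := ι_ne hq
  have hr' : r = ι p / ι q := by rw [eq_div_iff hq', hr]
  have h4 : (4 : RatFunc K) ≠ 0 := by
    have : (4 : RatFunc K) = RatFunc.C ((2 : K) * 2) := by
      rw [map_mul, map_ofNat]; norm_num
    rw [this]
    simpa using h2
  have hs : s * ι G = ι F := by
    rw [hF, hG]
    simp only [map_mul, map_sub, map_add, map_pow, map_ofNat]
    rw [← hr]
    linear_combination (ι q) ^ 4 * h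
  have hG0 : G ≠ 0 := by
    intro h0
    have h1 : (4 : RatFunc K) * (r ^ 3 + 1) * (ι q) ^ 4 = 0 := by
      have := congrArg (ι : K[X] →+* RatFunc K) h0
      rw [hG] at this
      simp only [map_mul, map_add, map_pow, map_ofNat, map_zero] at this
      rw [← hr] at this
      linear_combination this
    exact mul_ne_zero (mul_ne_zero h4 hne) (pow_ne_zero _ hq') h1
  have h108 : (C (108 : K)) ≠ 0 := by
    rw [Ne, C_eq_zero]
    have : (108 : K) = 2 ^ 2 * 3 ^ 3 := by norm_num
    rw [this]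
    exact mul_ne_zero (pow_ne_zero _ h2) (pow_ne_zero _ h3)
  have hu : IsUnit (C (108 : K)) := by
    rw [isUnit_C]
    exact (by simpa using h108 : (108 : K) ≠ 0).isUnit
  have b1 : C (108 : K) * q ^ 7 = 12 * p ^ 2 * q * F - (3 * p ^ 3 - 27 * q ^ 3) * G := by
    rw [hF, hG, map_ofNat]; ring
  have b2 : C (108 : K) * p ^ 7 = (108 * p ^ 3 + 96 * q ^ 3) * F + 192 * p * q ^ 2 * G := by
    rw [hF, hG, map_ofNat]; ring
  have hcop : IsCoprime F G := by
    obtain ⟨v, hv⟩ := hu.exists_right_inv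
    have c7 : IsCoprime (p ^ 7) (q ^ 7) := hpq.pow
    obtain ⟨a, b, hab⟩ := c7
    refine ⟨v * (a * (108 * p ^ 3 + 96 * q ^ 3) + b * (12 * p ^ 2 * q)),
      v * (a * (192 * p * q ^ 2) - b * (3 * p ^ 3 - 27 * q ^ 3)), ?_⟩
    linear_combination -v * a * b2 - v * b * b1 + (v * C 108) * hab + hv
  rw [ht_eq hcop hG0 hs, er]
  set m := max p.natDegree q.natDegree with hm
  have hp' : p.natDegree ≤ m := le_max_left _ _
  have hqm : q.natDegree ≤ m := le_max_right _ _
  have nd : ∀ a : ℕ, ((OfNat.ofNat (a + 2) : K[X])).natDegree = 0 := fun a => natDegree_ofNat _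
  have le_mul : ∀ {a b : K[X]} {i j k : ℕ}, a.natDegree ≤ i → b.natDegree ≤ j → i + j ≤ k →
      (a * b).natDegree ≤ k := fun ha hb hk =>
    (natDegree_mul_le.trans (Nat.add_le_add ha hb)).trans hk
  have le_pow : ∀ {a : K[X]} {i : ℕ} (n : ℕ), a.natDegree ≤ i → (a ^ n).natDegree ≤ n * i :=
    fun n ha => natDegree_pow_le.trans (Nat.mul_le_mul_left _ ha)
  have le_sub : ∀ {a b : K[X]} {k : ℕ}, a.natDegree ≤ k → b.natDegree ≤ k →
      (a - b).natDegree ≤ k := fun ha hb => (natDegree_sub_le _ _).trans (max_le ha hb)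
  have le_add : ∀ {a b : K[X]} {k : ℕ}, a.natDegree ≤ k → b.natDegree ≤ k →
      (a + b).natDegree ≤ k := fun ha hb => (natDegree_add_le _ _).trans (max_le ha hb)
  have z : ∀ n : ℕ, ((n : K[X])).natDegree ≤ 0 := fun n => (natDegree_natCast n).le
  have z8 : (8 : K[X]).natDegree ≤ 0 := by exact_mod_cast z 8
  have z4 : (4 : K[X]).natDegree ≤ 0 := by exact_mod_cast z 4
  have z12 : (12 : K[X]).natDegree ≤ 0 := by exact_mod_cast z 12
  have z3 : (3 : K[X]).natDegree ≤ 0 := by exact_mod_cast z 3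
  have z27 : (27 : K[X]).natDegree ≤ 0 := by exact_mod_cast z 27
  have z108 : (108 : K[X]).natDegree ≤ 0 := by exact_mod_cast z 108
  have z96 : (96 : K[X]).natDegree ≤ 0 := by exact_mod_cast z 96
  have z192 : (192 : K[X]).natDegree ≤ 0 := by exact_mod_cast z 192
  have hFle : F.natDegree ≤ 4 * m :=
    le_sub (le_pow 4 hp') (le_mul (le_mul z8 hp' le_rfl) (le_pow 3 hqm) (by omega))
  have hGle : G.natDegree ≤ 4 * m :=
    le_mul z4 (le_add (le_mul (le_pow 3 hp') hqm (by omega)) (le_pow 4 hqm)) (by omega)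
  apply le_antisymm (max_le hFle hGle)
  set M := max F.natDegree G.natDegree with hM
  have hFM : F.natDegree ≤ M := le_max_left _ _
  have hGM : G.natDegree ≤ M := le_max_right _ _
  have c1 : 7 * q.natDegree ≤ 3 * m + M := by
    have : (C (108 : K) * q ^ 7).natDegree ≤ 3 * m + M := by
      rw [b1]
      exact le_sub (le_mul (le_mul (le_mul z12 (le_pow 2 hp') le_rfl) hqm le_rfl) hFM (by omega))
        (le_mul (le_sub (le_mul z3 (le_pow 3 hp') le_rfl) (le_mul z27 (le_pow 3 hqm) le_rfl))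
          hGM (by omega))
    rwa [natDegree_C_mul (by simpa using h108), natDegree_pow] at this
  have c2 : 7 * p.natDegree ≤ 3 * m + M := by
    have : (C (108 : K) * p ^ 7).natDegree ≤ 3 * m + M := by
      rw [b2]
      exact le_add (le_mul (le_add (le_mul z108 (le_pow 3 hp') le_rfl)
        (le_mul z96 (le_pow 3 hqm) le_rfl)) hFM (by omega))
        (le_mul (le_mul (le_mul z192 hp' le_rfl) (le_pow 2 hqm) le_rfl) hGM (by omega))
    rwa [natDegree_C_mul (by simpa using h108), natDegree_pow] at this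
  omega

/-- `r³ = -1` forces height zero -/
theorem ht_of_cube {r : RatFunc K} (h : r ^ 3 + 1 = 0) : ht r = 0 := by
  have h1 : r ^ 3 = RatFunc.C (-1) := by
    rw [map_neg, map_one]; linear_combination h
  have := ht_cube r
  rw [h1, ht_C] at this
  omega

end Pool.Agent.K9h85.DG
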