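import Mathlib
import Pool.Agent.K9h85.DG.Formula

/-!
The coordinates of the step are homogeneous polynomials of degree `100`.
-/

set_option autoImplicit false

namespace Pool.Agent.K9h85.DG

open MvPolynomial

variable {K : Type*} [Field K]

theorem isHom_congr {σ : Type*} {P : MvPolynomial σ K} {a b : ℕ} (h : P.IsHomogeneous a)
    (hab : a = b) : P.IsHomogeneous b := hab ▸ h

theorem isHom_four {σ : Type*} : (4 : MvPolynomial σ K).IsHomogeneous 0 := by
  have := isHomogeneous_C (R := K) σ 4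
  rwa [map_ofNat] at this

theorem hom_invT {x1 x2 x3 y1 y2 y3 : MvPolynomial (Fin 4) K} {a b c : ℕ}
    (h1 : x1.IsHomogeneous a) (h2 : x2.IsHomogeneous a) (h3 : x3.IsHomogeneous a)
    (k1 : y1.IsHomogeneous b) (k2 : y2.IsHomogeneous b) (k3 : y3.IsHomogeneous b) (h : a + b = c)
    (i : Fin 4) : (invT x1 x2 x3 y1 y2 y3 i).IsHomogeneous c := by
  subst h
  fin_cases i
  · exact h1.mul (k1.sub k3)
  · exact h2.mul (k1.sub k3)
  · exact h3.mul (k1.sub k3)
  · exact h1.mul (k1.sub k2)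

theorem hom_uu {xa ya xb yb : MvPolynomial (Fin 4) K} {k : ℕ}
    (h1 : xa.IsHomogeneous (2 * k)) (h2 : ya.IsHomogeneous (3 * k)) (h3 : xb.IsHomogeneous (2 * k))
    (h4 : yb.IsHomogeneous (3 * k)) : (uu xa ya xb yb).IsHomogeneous (6 * k) := by
  refine IsHomogeneous.sub (isHom_congr ((h2.sub h4).pow 2) (by ring))
    (isHom_congr ((h1.add h3).mul ((h1.sub h3).pow 2)) (by ring))

theorem hom_vv {xa ya xb yb : MvPolynomial (Fin 4) K} {k : ℕ}
    (h1 : xa.IsHomogeneous (2 * k)) (h2 : ya.IsHomogeneous (3 * k)) (h3 : xb.IsHomogeneous (2 * k))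
    (h4 : yb.IsHomogeneous (3 * k)) : (vv xa ya xb yb).IsHomogeneous (9 * k) := by
  refine IsHomogeneous.sub (IsHomogeneous.neg (isHom_congr (((h1.sub h3).pow 3).mul h2) (by ring)))
    (isHom_congr ((h2.sub h4).mul (IsHomogeneous.sub (hom_uu h1 h2 h3 h4)
      (isHom_congr (((h1.sub h3).pow 2).mul h1) (by ring)))) (by ring))

theorem hom_X (i : Fin 4) : (X i : MvPolynomial (Fin 4) K).IsHomogeneous 1 := isHomogeneous_X _ _

theorem hom_pN : (pN (X : Fin 4 → MvPolynomial (Fin 4) K)).IsHomogeneous 4 :=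
  IsHomogeneous.sub ((hom_X 3).mul (((hom_X 0).pow 3).sub ((hom_X 2).pow 3)))
    ((hom_X 0).mul (((hom_X 0).pow 3).sub ((hom_X 1).pow 3)))

theorem hom_pM : (pM (X : Fin 4 → MvPolynomial (Fin 4) K)).IsHomogeneous 7 :=
  (((hom_X 3).mul ((hom_X 3).sub (hom_X 0))).mul (hom_X 0)).mul hom_pN

theorem hom_px1 : (px1 (X : Fin 4 → MvPolynomial (Fin 4) K)).IsHomogeneous (2 * 4) :=
  (isHom_four.mul (hom_X 0)).mul hom_pM
theorem hom_px2 : (px2 (X : Fin 4 → MvPolynomial (Fin 4) K)).IsHomogeneous (2 * 4) :=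
  (isHom_four.mul (hom_X 1)).mul hom_pM
theorem hom_px3 : (px3 (X : Fin 4 → MvPolynomial (Fin 4) K)).IsHomogeneous (2 * 4) :=
  (isHom_four.mul (hom_X 2)).mul hom_pM

theorem hom_py1 : (py1 (X : Fin 4 → MvPolynomial (Fin 4) K)).IsHomogeneous (3 * 4) :=
  (isHom_four.mul hom_pM).mul (IsHomogeneous.add
    ((((hom_X 3).sub (hom_X 0)).mul (hom_X 0)).mul (((hom_X 0).pow 3).sub ((hom_X 1).pow 3)))
    (hom_pN.mul (hom_X 3)))
theorem hom_py2 : (py2 (X : Fin 4 → MvPolynomial (Fin 4) K)).IsHomogeneous (3 * 4) :=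
  (isHom_four.mul hom_pM).mul (IsHomogeneous.sub
    ((((hom_X 3).sub (hom_X 0)).mul (hom_X 0)).mul (((hom_X 0).pow 3).sub ((hom_X 1).pow 3)))
    (hom_pN.mul (hom_X 3)))
theorem hom_py3 : (py3 (X : Fin 4 → MvPolynomial (Fin 4) K)).IsHomogeneous (3 * 4) :=
  (isHom_four.mul hom_pM).mul (IsHomogeneous.sub
    (((hom_X 3).mul ((hom_X 3).sub (hom_X 0))).mul (((hom_X 0).pow 3).sub ((hom_X 2).pow 3)))
    (hom_pN.mul (hom_X 0)))

theorem hom_stepT (i : Fin 4) :
    (stepT (X : Fin 4 → MvPolynomial (Fin 4) K) i).IsHomogeneous 100 := by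
  have d12 := (hom_px1 (K := K)).sub hom_px2
  have d23 := (hom_px2 (K := K)).sub hom_px3
  have u12 := hom_uu (K := K) hom_px1 hom_py1 hom_px2 hom_py2
  have u23 := hom_uu (K := K) hom_px2 hom_py2 hom_px3 hom_py3
  have v12 := hom_vv (K := K) hom_px1 hom_py1 hom_px2 hom_py2
  have v23 := hom_vv (K := K) hom_px2 hom_py2 hom_px3 hom_py3
  exact hom_invT (a := 40) (b := 60)
    (((d12.mul d23).pow 2).mul hom_px1) ((d23.pow 2).mul u12) ((d12.pow 2).mul u23)
    (((d12.mul d23).pow 3).mul hom_py1) ((d23.pow 3).mul v12) ((d12.pow 3).mul v23) rfl i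

theorem totalDegree_px1 : (px1 (X : Fin 4 → MvPolynomial (Fin 4) K)).totalDegree ≤ 8 :=
  hom_px1.totalDegree_le
theorem totalDegree_px2 : (px2 (X : Fin 4 → MvPolynomial (Fin 4) K)).totalDegree ≤ 8 :=
  hom_px2.totalDegree_le
theorem totalDegree_px3 : (px3 (X : Fin 4 → MvPolynomial (Fin 4) K)).totalDegree ≤ 8 :=
  hom_px3.totalDegree_le
theorem totalDegree_py1 : (py1 (X : Fin 4 → MvPolynomial (Fin 4) K)).totalDegree ≤ 12 :=
  hom_py1.totalDegree_le
theorem totalDegree_py2 : (py2 (X : Fin 4 → MvPolynomial (Fin 4) K)).totalDegree ≤ 12 :=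
  hom_py2.totalDegree_le
theorem totalDegree_py3 : (py3 (X : Fin 4 → MvPolynomial (Fin 4) K)).totalDegree ≤ 12 :=
  hom_py3.totalDegree_le

end Pool.Agent.K9h85.DG
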