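import Mathlib
import Pool.Agent.K9h85.DG.Basic

/-!
Iterates of dominant rational maps: existence, dominance criterion, bounds for degrees.
-/

set_option autoImplicit false

namespace Pool.Agent.K9h85.DG

open MvPolynomial Pool.Agent.H905R3

variable {K : Type*} [Field K] {N : ℕ}

theorem algInd_subst (f : RatMap K N) (hf : f.Dominant) (n : ℕ) :
    AlgebraicIndependent K (f.subst n) := by
  induction n with
  | zero =>
    simpa [RatMap.subst] using MvPolynomial.algebraicIndependent_X (Fin (N + 1)) K
  | succ n ih =>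
    have h1 : Function.Injective (bind₁ (f.subst n) : MvPolynomial (Fin (N + 1)) K →ₐ[K] _) := by
      have := ih
      rw [AlgebraicIndependent] at this
      simpa [aeval_eq_bind₁] using this
    have h2 := hf.map' h1
    exact h2

theorem subst_ne_zero (f : RatMap K N) (hf : f.Dominant) (n : ℕ) (i : Fin (N + 1)) :
    f.subst n i ≠ 0 := (algInd_subst f hf n).ne_zero i

theorem exists_iterate (f : RatMap K N) (hf : f.Dominant) (n : ℕ) : ∃ g, f.IsIterate n g := by
  obtain ⟨c, g, hc, hg⟩ := exists_reduced (f.subst n) _ (subst_homogeneous f n)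
    ⟨0, subst_ne_zero f hf n 0⟩
  exact ⟨g, c, hc, hg⟩

/-- Upper bound for the degree of an iterate. -/
theorem degree_le (f g : RatMap K N) {n : ℕ} (hg : f.IsIterate n g)
    (hf : f.Dominant)
    (G : Fin (N + 1) → MvPolynomial (Fin (N + 1)) K) (e : ℕ) (hG : ∀ i, (G i).totalDegree ≤ e)
    (h h' : MvPolynomial (Fin (N + 1)) K) (hh : h ≠ 0)
    (H : ∀ i, h * f.subst n i = h' * G i) : g.degree ≤ e := by
  obtain ⟨c, hc, hcg⟩ := hg
  have hh' : h' ≠ 0 := by
    rintro rfl
    have := H 0
    rw [zero_mul] at this
    exact mul_ne_zero hh (subst_ne_zero f hf n 0) this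
  obtain ⟨a, b, d, hab, ha, hb⟩ := UniqueFactorizationMonoid.exists_reduced_factors h' hh' (h * c)
  have hd : d ≠ 0 := by
    rintro rfl
    exact hh' (by rw [← ha, zero_mul])
  have h1 : ∀ i, a * G i = b * g.poly i := by
    intro i
    have := H i
    rw [hcg i, ← mul_assoc, ← ha, ← hb, mul_assoc, mul_assoc] at this
    exact (mul_left_cancel₀ hd this).symm
  have hau : IsUnit a := g.reduced a fun i => by
    have : a ∣ b * g.poly i := ⟨_, (h1 i).symm⟩
    exact hab.dvd_of_dvd_mul_left this
  obtain ⟨i, hi⟩ := g.exists_ne_zero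
  obtain ⟨u, hu, rfl⟩ := MvPolynomial.isUnit_iff_eq_C_of_isReduced.1 hau
  have hb0 : b ≠ 0 := by
    rintro rfl
    rw [mul_zero] at hb
    exact mul_ne_zero hh hc hb.symm
  have h2 : (C u * G i).totalDegree ≤ e := by
    refine (totalDegree_mul _ _).trans ?_
    rw [totalDegree_C, zero_add]
    exact hG i
  rw [h1 i, totalDegree_mul_of_isDomain hb0 hi, (g.homogeneous i).totalDegree hi] at h2
  omega

/-- Dominance criterion: a rational map with a generic point in its image is dominant. -/
theorem dominant_of_generic (hN : 1 ≤ N) (f : RatMap K N) {Ω : Type*} [Field Ω] [Algebra K Ω]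
    (w x : Fin (N + 1) → Ω) (hx : AlgebraicIndependent K x) (κ : Ω) (hκ : κ ≠ 0)
    (hw : ∀ i, aeval w (f.poly i) = κ * x i) : f.Dominant := by
  have hd : f.degree ≠ 0 := by
    intro h0
    have h1 : ∀ i, ∃ a : K, f.poly i = C a := by
      intro i
      have := f.homogeneous i
      rw [h0] at this
      exact ⟨_, (totalDegree_eq_zero_iff_eq_C.1 (by
        simpa using this.totalDegree_le))⟩
    choose a ha using h1
    have h2 : ∀ i, algebraMap K Ω (a i) = κ * x i := by
      intro i
      rw [← hw i, ha i, algHom_C]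
    set i0 : Fin (N + 1) := ⟨0, by omega⟩
    set i1 : Fin (N + 1) := ⟨1, by omega⟩
    have h01 : i0 ≠ i1 := by simp [i0, i1, Fin.ext_iff]
    have h3 : aeval x (C (a i0) * X i1 - C (a i1) * X i0 : MvPolynomial (Fin (N + 1)) K) = 0 := by
      simp only [map_sub, map_mul, aeval_X, algHom_C, h2]
      ring
    have h4 := hx.eq_zero_of_aeval_eq_zero _ h3
    have h5 : a i0 = 0 := by
      have := congrArg (coeff (Finsupp.single i1 1)) h4
      simpa [coeff_C_mul, coeff_X, Finsupp.single_left_inj, h01] using this
    have h6 := h2 i0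
    rw [h5, map_zero] at h6
    exact mul_ne_zero hκ (hx.ne_zero i0) h6.symm
  rw [RatMap.Dominant, algebraicIndependent_iff]
  intro P hP
  have h1 : ∀ e, aeval f.poly (homogeneousComponent e P) = 0 := by
    intro e
    have h2 : ∀ e, (aeval f.poly (homogeneousComponent e P)).IsHomogeneous (f.degree * e) := by
      intro e
      simpa using (homogeneousComponent_isHomogeneous e P).aeval f.poly f.homogeneous
    have h3 := congrArg (homogeneousComponent (f.degree * e)) hP
    rw [map_zero] at h3
    rw [← sum_homogeneousComponent P, map_sum, map_sum] at h3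
    by_cases he : e ∈ Finset.range (P.totalDegree + 1)
    · rw [Finset.sum_eq_single_of_mem e he] at h3
      · rwa [homogeneousComponent_of_mem (h2 e), if_pos rfl] at h3
      · intro e' _ hne
        rw [homogeneousComponent_of_mem (h2 e'), if_neg]
        intro h
        exact hne (Nat.eq_of_mul_eq_mul_left (Nat.pos_of_ne_zero hd) h).symm
    · rw [homogeneousComponent_eq_zero, map_zero]
      simpa using he
  have h2 : ∀ e, homogeneousComponent e P = 0 := by
    intro e
    have h3 := congrArg (aeval w) (h1 e)
    rw [map_zero] at h3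
    have h4 : aeval w (aeval f.poly (homogeneousComponent e P)) =
        aeval (fun i => κ * x i) (homogeneousComponent e P) := by
      rw [← AlgHom.comp_apply, comp_aeval]
      simp only [hw]
    rw [h4, aeval_smul_of_isHomogeneous (homogeneousComponent_isHomogeneous e P)] at h3
    have h5 := (mul_eq_zero.1 h3).resolve_left (pow_ne_zero _ hκ)
    exact hx.eq_zero_of_aeval_eq_zero _ h5
  rw [← sum_homogeneousComponent P]
  exact Finset.sum_eq_zero fun e _ => h2 e

/-- Evaluating a homogeneous polynomial at polynomials in one variable. -/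
theorem natDegree_aeval_le {m d : ℕ} {F : MvPolynomial (Fin m) K} (hF : F.totalDegree ≤ d)
    (γ : Fin m → Polynomial K) (r : ℕ) (hγ : ∀ i, (γ i).natDegree ≤ r) :
    (aeval γ F).natDegree ≤ d * r := by
  rw [aeval_def, eval₂_eq']
  refine Polynomial.natDegree_sum_le_of_forall_le _ _ fun s hs => ?_
  refine (Polynomial.natDegree_mul_le).trans ?_
  have h1 : (algebraMap K (Polynomial K) (coeff s F)).natDegree = 0 := by
    rw [Polynomial.algebraMap_apply, Algebra.algebraMap_self, RingHom.id_apply,
      Polynomial.natDegree_C]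
  rw [h1, zero_add]
  refine (Polynomial.natDegree_prod_le _ _).trans ?_
  have h2 : ∑ i, s i ≤ d := by
    have := (le_totalDegree hs).trans hF
    rwa [Finsupp.sum_fintype _ _ (fun _ => rfl)] at this
  calc ∑ i, (γ i ^ s i).natDegree ≤ ∑ i, s i * r := by
        refine Finset.sum_le_sum fun i _ => (Polynomial.natDegree_pow_le).trans ?_
        exact Nat.mul_le_mul_left _ (hγ i)
    _ = (∑ i, s i) * r := by rw [Finset.sum_mul]
    _ ≤ d * r := Nat.mul_le_mul_right _ h2

end Pool.Agent.K9h85.DG
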