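import Mathlib
import Pool.Agent.K9h85.DG.CurveHeight

/-!
The height is a quadratic form on the points of `y² = x³ + w³` over `K(t)`.
-/

set_option autoImplicit false
set_option linter.unusedSectionVars false

namespace Pool.Agent.K9h85.DG

open Polynomial

variable {K : Type*} [Field K] [DecidableEq (RatFunc K)] {w : RatFunc K}

/-- The height of a point. -/
noncomputable def H (P : (E (w ^ 3)).Point) : ℕ := ht (xc P / w)

theorem H_zero : H (0 : (E (w ^ 3)).Point) = 0 := by
  have : xc (0 : (E (w ^ 3)).Point) = 0 := rfl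
  rw [H, this, zero_div, ht_zero]

theorem H_neg (P : (E (w ^ 3)).Point) : H (-P) = H P := by rw [H, H, xc_neg]

section

variable (h2 : (2 : K) ≠ 0) (h3 : (3 : K) ≠ 0) (hw : w ≠ 0)

include h2 in
theorem two_ne : (2 : RatFunc K) ≠ 0 := by
  have : (2 : RatFunc K) = RatFunc.C (2 : K) := by rw [map_ofNat]
  rw [this]
  simpa using h2

include h3 in
theorem three_ne : (3 : RatFunc K) ≠ 0 := by
  have : (3 : RatFunc K) = RatFunc.C (3 : K) := by rw [map_ofNat]
  rw [this]
  simpa using h3

include h2 h3 hw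

theorem H_double (P : (E (w ^ 3)).Point) : H (P + P) = 4 * H P := by
  by_cases hP : P = 0
  · rw [hP, add_zero, H_zero]
  by_cases hy : yc P = 0
  · rw [add_self_eq_zero hy, H_zero]
    have := eqn hP
    rw [hy] at this
    have h1 : (xc P / w) ^ 3 + 1 = 0 := by
      field_simp
      linear_combination -this
    rw [H, ht_of_cube h1]
  · obtain ⟨-, h⟩ := add_self (two_ne h2) hP hy
    have he := eqn hP
    rw [he] at h
    refine ht_double h2 h3 ?_ ?_
    · field_simp
      linear_combination h
    · intro h0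
      apply hy
      have h1 : xc P ^ 3 + w ^ 3 = 0 := by
        field_simp at h0
        linear_combination h0
      rw [h1] at he
      simpa using he

theorem H_par_le (P Q : (E (w ^ 3)).Point) : H (P + Q) + H (P - Q) ≤ 2 * H P + 2 * H Q := by
  by_cases hP : P = 0
  · rw [hP, zero_add, zero_sub, H_neg, H_zero]; omega
  by_cases hQ : Q = 0
  · rw [hQ, add_zero, sub_zero, H_zero]; omega
  by_cases hx : xc P = xc Q
  · rcases eq_or_neg hP hQ hx with rfl | rfl
    · rw [sub_self, H_zero, H_double h2 h3 hw]; omega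
    · rw [neg_add_cancel, H_zero, sub_eq_add_neg, H_double h2 h3 hw, H_neg]; omega
  obtain ⟨p, q, hq, hpq, hr, er⟩ := exists_rep (xc P / w)
  obtain ⟨p', q', hq', hpq', hr', er'⟩ := exists_rep (xc Q / w)
  have e1 : xc P * ι q = w * ι p := by rw [← hr]; field_simp
  have e2 : xc Q * ι q' = w * ι p' := by rw [← hr']; field_simp
  have a1 := xc_add_sub hP hQ hx
  have a2 := xc_mul_sub hP hQ hx
  have iq : (ι q : RatFunc K) ≠ 0 := ι_ne hq
  have iq' : (ι q' : RatFunc K) ≠ 0 := ι_ne hq'
  have x1 : xc P = w * ι p / ι q := by rw [eq_div_iff iq, e1]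
  have x2 : xc Q = w * ι p' / ι q' := by rw [eq_div_iff iq', e2]
  have hF0 : (p * q' - p' * q) ^ 2 ≠ 0 := by
    apply pow_ne_zero
    intro h0
    apply hx
    rw [x1, x2]
    have := congrArg (ι : K[X] →+* RatFunc K) h0
    simp only [map_sub, map_mul, map_zero] at this
    field_simp
    linear_combination this
  have key := ht_add_ht_le (r := xc (P + Q) / w) (s := xc (P - Q) / w)
    (F0 := (p * q' - p' * q) ^ 2)
    (F1 := 2 * (p * p' * (p * q' + p' * q) + 2 * (q * q') ^ 2))
    (F2 := (p * p') ^ 2 - 4 * (q * q') * (p * q' + p' * q)) hF0 ?_ ?_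
  · rw [H, H, H, H, er, er']
    refine key.trans ?_
    set m := max p.natDegree q.natDegree with hm
    set n := max p'.natDegree q'.natDegree with hn
    have hp1 : p.natDegree ≤ m := le_max_left _ _
    have hq1 : q.natDegree ≤ m := le_max_right _ _
    have hp2 : p'.natDegree ≤ n := le_max_left _ _
    have hq2 : q'.natDegree ≤ n := le_max_right _ _
    have le_mul : ∀ {a b : K[X]} {i j k : ℕ}, a.natDegree ≤ i → b.natDegree ≤ j → i + j ≤ k →
        (a * b).natDegree ≤ k := fun ha hb hk =>
      (natDegree_mul_le.trans (Nat.add_le_add ha hb)).trans hk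
    have le_pow : ∀ {a : K[X]} {i : ℕ} (n : ℕ), a.natDegree ≤ i → (a ^ n).natDegree ≤ n * i :=
      fun n ha => natDegree_pow_le.trans (Nat.mul_le_mul_left _ ha)
    have le_sub : ∀ {a b : K[X]} {k : ℕ}, a.natDegree ≤ k → b.natDegree ≤ k →
        (a - b).natDegree ≤ k := fun ha hb => (natDegree_sub_le _ _).trans (max_le ha hb)
    have le_add : ∀ {a b : K[X]} {k : ℕ}, a.natDegree ≤ k → b.natDegree ≤ k →
        (a + b).natDegree ≤ k := fun ha hb => (natDegree_add_le _ _).trans (max_le ha hb)
    have z : ∀ n : ℕ, ((n : K[X])).natDegree ≤ 0 := fun n => (natDegree_natCast n).le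
    have z2 : (2 : K[X]).natDegree ≤ 0 := by exact_mod_cast z 2
    have z4 : (4 : K[X]).natDegree ≤ 0 := by exact_mod_cast z 4
    refine max_le ?_ (max_le ?_ ?_)
    · exact (le_pow 2 (le_sub (le_mul hp1 hq2 le_rfl) (le_mul hp2 hq1 (by omega)))).trans
        (by omega)
    · exact le_mul z2 (le_add (le_mul (le_mul hp1 hp2 le_rfl)
        (le_add (le_mul hp1 hq2 le_rfl) (le_mul hp2 hq1 (by omega))) le_rfl)
        (le_mul z2 (le_pow 2 (le_mul hq1 hq2 le_rfl)) (by omega))) (by omega)
    · exact le_sub ((le_pow 2 (le_mul hp1 hp2 le_rfl)).trans (by omega))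
        (le_mul (le_mul z4 (le_mul hq1 hq2 le_rfl) le_rfl)
        (le_add (le_mul hp1 hq2 le_rfl) (le_mul hp2 hq1 (by omega))) (by omega))
  · rw [x1, x2] at a1
    simp only [map_mul, map_add, map_sub, map_pow, map_ofNat]
    field_simp at a1 ⊢
    linear_combination a1
  · rw [x1, x2] at a2
    simp only [map_mul, map_add, map_sub, map_pow, map_ofNat]
    field_simp at a2 ⊢
    linear_combination a2

theorem H_par (P Q : (E (w ^ 3)).Point) : H (P + Q) + H (P - Q) = 2 * H P + 2 * H Q := by
  have h1 := H_par_le h2 h3 hw P Q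
  have h4 := H_par_le h2 h3 hw (P + Q) (P - Q)
  have e1 : P + Q + (P - Q) = P + P := by abel
  have e2 : P + Q - (P - Q) = Q + Q := by abel
  rw [e1, e2, H_double h2 h3 hw, H_double h2 h3 hw] at h4
  omega

theorem H_nsmul (n : ℕ) (P : (E (w ^ 3)).Point) : H (n • P) = n ^ 2 * H P := by
  induction n using Nat.strong_induction_on with
  | _ n ih =>
    rcases n with _ | _ | n
    · rw [zero_nsmul, H_zero]; ring
    · rw [zero_add, one_nsmul]; ring
    · have h1 := H_par h2 h3 hw ((n + 1) • P) P
      have e1 : (n + 1) • P + P = (n + 1 + 1) • P := by rw [add_nsmul P (n + 1) 1, one_nsmul]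
      have e2 : (n + 1) • P - P = n • P := by rw [add_nsmul, one_nsmul, add_sub_cancel_right]
      rw [e1, e2, ih n (by omega), ih (n + 1) (by omega)] at h1
      have : n ^ 2 * H P + (n + 1 + 1) ^ 2 * H P = 2 * ((n + 1) ^ 2 * H P) + 2 * H P := by ring
      omega

end

end Pool.Agent.K9h85.DG
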