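import Mathlib
import Pool.Agent.K9h85.DG.Curve

/-!
The step formulas describe the maps `(P₁, P₂, P₃) ↦ (P₁, P₁ + P₂, P₂ + P₃)` and
`(P₁, P₂, P₃) ↦ (P₁, P₂ - P₁, P₃ - (P₂ - P₁))`.
-/

set_option autoImplicit false
set_option linter.unusedSectionVars false

namespace Pool.Agent.K9h85.DG

open WeierstrassCurve

variable {F : Type*} [Field F] [DecidableEq F] {c : F}

/-- The coordinate vector of a triple of points. -/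
def invP (P1 P2 P3 : (E c).Point) : Fin 4 → F :=
  invT (xc P1) (xc P2) (xc P3) (yc P1) (yc P2) (yc P3)

structure Good (P1 P2 P3 : (E c).Point) : Prop where
  n1 : P1 ≠ 0
  n2 : P2 ≠ 0
  n3 : P3 ≠ 0
  x1 : xc P1 ≠ 0
  y12 : yc P1 ≠ yc P2
  y13 : yc P1 ≠ yc P3
  y23 : yc P2 ≠ yc P3
  x12 : xc P1 ≠ xc P2
  x23 : xc P2 ≠ xc P3

theorem eqn12 {P Q : (E c).Point} (hP : P ≠ 0) (hQ : Q ≠ 0) :
    yc P ^ 2 - xc P ^ 3 = yc Q ^ 2 - xc Q ^ 3 := by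
  rw [eqn hP, eqn hQ]; ring

theorem stepP_eq {A : Type*} [CommRing A] {x1 x2 x3 y1 y2 y3 x2' y2' x3' y3' : A}
    (a2 : (x1 - x2) ^ 2 * x2' = uu x1 y1 x2 y2) (a3 : (x1 - x2) ^ 3 * y2' = vv x1 y1 x2 y2)
    (b2 : (x2 - x3) ^ 2 * x3' = uu x2 y2 x3 y3) (b3 : (x2 - x3) ^ 3 * y3' = vv x2 y2 x3 y3)
    (i : Fin 4) : stepP x1 x2 x3 y1 y2 y3 i =
      ((x1 - x2) * (x2 - x3)) ^ 5 * invT x1 x2' x3' y1 y2' y3' i := by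
  rw [stepP, ← a2, ← a3, ← b2, ← b3, ← invT_smul]
  generalize x1 - x2 = s
  generalize x2 - x3 = t
  have e1 : t ^ 2 * (s ^ 2 * x2') = (s * t) ^ 2 * x2' := by ring
  have e2 : s ^ 2 * (t ^ 2 * x3') = (s * t) ^ 2 * x3' := by ring
  have e3 : t ^ 3 * (s ^ 3 * y2') = (s * t) ^ 3 * y2' := by ring
  have e4 : s ^ 3 * (t ^ 3 * y3') = (s * t) ^ 3 * y3' := by ring
  rw [e1, e2, e3, e4]

theorem backP_eq {A : Type*} [CommRing A] {x1 x2 x3 y1 y2 y3 x2' y2' x3' y3' : A}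
    (a2 : (x2 - x1) ^ 2 * x2' = uu x2 y2 x1 (-y1)) (a3 : (x2 - x1) ^ 3 * y2' = vv x2 y2 x1 (-y1))
    (b2 : (x3 - x2') ^ 2 * x3' = uu x3 y3 x2' (-y2'))
    (b3 : (x3 - x2') ^ 3 * y3' = vv x3 y3 x2' (-y2'))
    (i : Fin 4) : backP x1 x2 x3 y1 y2 y3 i =
      ((x2 - x1) ^ 3 * (x3 - x2')) ^ 5 * invT x1 x2' x3' y1 y2' y3' i := by
  have e1 : -((x2 - x1) ^ 3 * y2') = (x2 - x1) ^ 3 * -y2' := by ring
  rw [backP, ← a2, ← a3, e1, uu_smul, vv_smul, ← b2, ← b3, ← invT_smul]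
  have e0 : (x2 - x1) ^ 2 * x3 - (x2 - x1) ^ 2 * x2' = (x2 - x1) ^ 2 * (x3 - x2') := by ring
  rw [e0]
  generalize x2 - x1 = s
  generalize x3 - x2' = t
  have f1 : (s * (s ^ 2 * t)) ^ 2 * x1 = (s ^ 3 * t) ^ 2 * x1 := by ring
  have f2 : (s ^ 2 * t) ^ 2 * (s ^ 2 * x2') = (s ^ 3 * t) ^ 2 * x2' := by ring
  have f3 : s ^ 6 * (t ^ 2 * x3') = (s ^ 3 * t) ^ 2 * x3' := by ring
  have f4 : (s * (s ^ 2 * t)) ^ 3 * y1 = (s ^ 3 * t) ^ 3 * y1 := by ring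
  have f5 : (s ^ 2 * t) ^ 3 * (s ^ 3 * y2') = (s ^ 3 * t) ^ 3 * y2' := by ring
  have f6 : s ^ 9 * (t ^ 3 * y3') = (s ^ 3 * t) ^ 3 * y3' := by ring
  rw [f1, f2, f3, f4, f5, f6]

theorem stepP_point {P1 P2 P3 : (E c).Point} (hg : Good P1 P2 P3) :
    P1 + P2 ≠ 0 ∧ P2 + P3 ≠ 0 ∧ ∀ i, stepP (xc P1) (xc P2) (xc P3) (yc P1) (yc P2) (yc P3) i =
      ((xc P1 - xc P2) * (xc P2 - xc P3)) ^ 5 * invP P1 (P1 + P2) (P2 + P3) i := by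
  obtain ⟨a1, a2, a3⟩ := add_of_ne hg.n1 hg.n2 hg.x12
  obtain ⟨b1, b2, b3⟩ := add_of_ne hg.n2 hg.n3 hg.x23
  exact ⟨a1, b1, fun i => stepP_eq a2 a3 b2 b3 i⟩

theorem step_point {P1 P2 P3 : (E c).Point} (h2 : (2 : F) ≠ 0) (hg : Good P1 P2 P3)
    (X : Fin 4 → F) (k : F) (hk : k ≠ 0) (hX : ∀ i, X i = k * invP P1 P2 P3 i) :
    P1 + P2 ≠ 0 ∧ P2 + P3 ≠ 0 ∧ ∃ k' : F, k' ≠ 0 ∧
      ∀ i, stepT X i = k' * invP P1 (P1 + P2) (P2 + P3) i := by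
  obtain ⟨a, b, h⟩ := stepP_point hg
  refine ⟨a, b, ?_⟩
  obtain ⟨m, hm⟩ : ∃ m, m = -2 * k ^ 4 * xc P1 ^ 2 * (yc P1 - yc P3) ^ 3 * (yc P1 - yc P2) *
    (yc P2 - yc P3) := ⟨_, rfl⟩
  obtain ⟨e1, e2, e3, f1, f2, f3⟩ := p_invT k _ _ _ _ _ _ (eqn12 hg.n1 hg.n2) (eqn12 hg.n1 hg.n3)
    X hX m hm
  have hm0 : m ≠ 0 := by
    rw [hm]
    refine mul_ne_zero (mul_ne_zero (mul_ne_zero (mul_ne_zero (mul_ne_zero (neg_ne_zero.2 h2)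
      (pow_ne_zero _ hk)) (pow_ne_zero _ hg.x1)) (pow_ne_zero _ (sub_ne_zero.2 hg.y13)))
      (sub_ne_zero.2 hg.y12)) (sub_ne_zero.2 hg.y23)
  refine ⟨m ^ 25 * ((xc P1 - xc P2) * (xc P2 - xc P3)) ^ 5, ?_, fun i => ?_⟩
  · exact mul_ne_zero (pow_ne_zero _ hm0) (pow_ne_zero _ (mul_ne_zero (sub_ne_zero.2 hg.x12)
      (sub_ne_zero.2 hg.x23)))
  · rw [stepT, e1, e2, e3, f1, f2, f3, stepP_smul, h, mul_assoc]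

theorem backP_point {P1 P2 P3 : (E c).Point} (n1 : P1 ≠ 0) (n2 : P2 ≠ 0) (n3 : P3 ≠ 0)
    (x12 : xc P1 ≠ xc P2) (hx : xc P3 ≠ xc (P2 - P1)) :
    P2 - P1 ≠ 0 ∧ P3 - (P2 - P1) ≠ 0 ∧
      ∀ i, backP (xc P1) (xc P2) (xc P3) (yc P1) (yc P2) (yc P3) i =
      ((xc P2 - xc P1) ^ 3 * (xc P3 - xc (P2 - P1))) ^ 5 * invP P1 (P2 - P1) (P3 - (P2 - P1)) i := by
  obtain ⟨a1, a2, a3⟩ := add_of_ne n2 (neg_ne n1) (by simpa using x12.symm)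
  rw [← sub_eq_add_neg] at a1 a2 a3
  obtain ⟨b1, b2, b3⟩ := add_of_ne n3 (neg_ne a1) (by rw [xc_neg]; exact hx)
  rw [← sub_eq_add_neg] at b1 b2 b3
  rw [xc_neg, yc_neg] at a2 a3 b2 b3
  exact ⟨a1, b1, fun i => backP_eq a2 a3 b2 b3 i⟩

theorem back_point {P1 P2 P3 : (E c).Point} (h2 : (2 : F) ≠ 0) (n1 : P1 ≠ 0) (n2 : P2 ≠ 0)
    (n3 : P3 ≠ 0) (x1 : xc P1 ≠ 0) (y12 : yc P1 ≠ yc P2) (y13 : yc P1 ≠ yc P3)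
    (y23 : yc P2 ≠ yc P3) (x12 : xc P1 ≠ xc P2) (hx : xc P3 ≠ xc (P2 - P1))
    (X : Fin 4 → F) (k : F) (hk : k ≠ 0) (hX : ∀ i, X i = k * invP P1 P2 P3 i) :
    P2 - P1 ≠ 0 ∧ P3 - (P2 - P1) ≠ 0 ∧ ∃ k' : F, k' ≠ 0 ∧
      ∀ i, backT X i = k' * invP P1 (P2 - P1) (P3 - (P2 - P1)) i := by
  obtain ⟨a, b, h⟩ := backP_point n1 n2 n3 x12 hx
  refine ⟨a, b, ?_⟩
  obtain ⟨m, hm⟩ : ∃ m, m = -2 * k ^ 4 * xc P1 ^ 2 * (yc P1 - yc P3) ^ 3 * (yc P1 - yc P2) *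
    (yc P2 - yc P3) := ⟨_, rfl⟩
  obtain ⟨e1, e2, e3, f1, f2, f3⟩ := p_invT k _ _ _ _ _ _ (eqn12 n1 n2) (eqn12 n1 n3)
    X hX m hm
  have hm0 : m ≠ 0 := by
    rw [hm]
    refine mul_ne_zero (mul_ne_zero (mul_ne_zero (mul_ne_zero (mul_ne_zero (neg_ne_zero.2 h2)
      (pow_ne_zero _ hk)) (pow_ne_zero _ x1)) (pow_ne_zero _ (sub_ne_zero.2 y13)))
      (sub_ne_zero.2 y12)) (sub_ne_zero.2 y23)
  refine ⟨m ^ 45 * ((xc P2 - xc P1) ^ 3 * (xc P3 - xc (P2 - P1))) ^ 5, ?_, fun i => ?_⟩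
  · exact mul_ne_zero (pow_ne_zero _ hm0) (pow_ne_zero _ (mul_ne_zero (pow_ne_zero _
      (sub_ne_zero.2 x12.symm)) (sub_ne_zero.2 hx)))
  · rw [backT, e1, e2, e3, f1, f2, f3, backP_smul, h, mul_assoc]

end Pool.Agent.K9h85.DG
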