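import Mathlib
import Pool.Agent.K9h85.DG.Quad
import Pool.Agent.K9h85.DG.Step

/-!
The multiples of the point `(t w, w²)` on `y² = x³ + w³`, `w = t³ + 1`.
-/

set_option autoImplicit false
set_option linter.unusedSectionVars false

namespace Pool.Agent.K9h85.DG

open Polynomial

section T

variable {F : Type*} [Field F] [DecidableEq F] {c : F}

/-- second component of the `n`-th iterate -/
def T2 (P1 P2 : (E c).Point) (n : ℕ) : (E c).Point := P2 + n • P1

/-- third component of the `n`-th iterate -/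
def T3 (P1 P2 P3 : (E c).Point) (n : ℕ) : (E c).Point := P3 + n • P2 + (n.choose 2) • P1

theorem T2_zero (P1 P2 : (E c).Point) : T2 P1 P2 0 = P2 := by simp [T2]
theorem T3_zero (P1 P2 P3 : (E c).Point) : T3 P1 P2 P3 0 = P3 := by simp [T3]

theorem T2_succ (P1 P2 : (E c).Point) (n : ℕ) : P1 + T2 P1 P2 n = T2 P1 P2 (n + 1) := by
  rw [T2, T2, add_nsmul, one_nsmul]; abel

theorem T3_succ (P1 P2 P3 : (E c).Point) (n : ℕ) :
    T2 P1 P2 n + T3 P1 P2 P3 n = T3 P1 P2 P3 (n + 1) := by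
  have : (n + 1).choose 2 = n + n.choose 2 := by
    rw [Nat.choose_succ_succ' n 1, Nat.choose_one_right]
  rw [T2, T3, T3, this, add_nsmul, add_nsmul, one_nsmul]; abel

end T

variable {K : Type*} [Field K]

theorem w_ne : (RatFunc.X ^ 3 + 1 : RatFunc K) ≠ 0 := by
  have : (RatFunc.X ^ 3 + 1 : RatFunc K) = ι (X ^ 3 + 1) := by
    simp [RatFunc.algebraMap_X]
  rw [this]
  apply ι_ne
  intro h
  have := congrArg (fun p : K[X] => p.coeff 0) h
  simp [coeff_X_pow] at this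

theorem X_ne : (RatFunc.X : RatFunc K) ≠ 0 := RatFunc.X_ne_zero

variable [DecidableEq (RatFunc K)] (h2 : (2 : K) ≠ 0) (h3 : (3 : K) ≠ 0)

/-- The point `(t w, w²)`. -/
noncomputable def P0 : (E ((RatFunc.X ^ 3 + 1 : RatFunc K) ^ 3)).Point :=
  .some (RatFunc.X * (RatFunc.X ^ 3 + 1)) ((RatFunc.X ^ 3 + 1) ^ 2)
    ((E_nonsingular (two_ne h2) (three_ne h3) _ _).2
      ⟨by ring, Or.inr (pow_ne_zero _ w_ne)⟩)

theorem H_P0 : H (P0 h2 h3) = 1 := by
  rw [H, P0, xc_some, mul_div_assoc, div_self w_ne, mul_one, ht_X]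

theorem H_mul (n : ℕ) : H (n • P0 h2 h3) = n ^ 2 := by
  rw [H_nsmul h2 h3 w_ne, H_P0, mul_one]

theorem mul_ne {n : ℕ} (hn : n ≠ 0) : n • P0 h2 h3 ≠ 0 := by
  intro h
  have := H_mul h2 h3 n
  rw [h, H_zero] at this
  exact hn (by simpa using this.symm)

theorem xc_ne_zero {n : ℕ} (hn : n ≠ 0) : xc (n • P0 h2 h3) ≠ 0 := by
  intro h
  have := H_mul h2 h3 n
  rw [H, h, zero_div, ht_zero] at this
  exact hn (by simpa using this.symm)

theorem xc_ne {m n : ℕ} (hmn : m ≠ n) : xc (m • P0 h2 h3) ≠ xc (n • P0 h2 h3) := by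
  intro h
  have h1 := H_mul h2 h3 m
  have h4 := H_mul h2 h3 n
  rw [H, h] at h1
  rw [H, h1] at h4
  exact hmn ((Nat.pow_left_injective (n := 2) (by norm_num)) h4)

theorem yc_ne {m n : ℕ} (hm : m ≠ 0) (hn : n ≠ 0) (hmn : m ≠ n) :
    yc (m • P0 h2 h3) ≠ yc (n • P0 h2 h3) := by
  intro h
  have e1 := eqn (mul_ne h2 h3 hm)
  have e2 := eqn (mul_ne h2 h3 hn)
  have e3 : xc (m • P0 h2 h3) ^ 3 = xc (n • P0 h2 h3) ^ 3 := by
    rw [h] at e1
    linear_combination e2 - e1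
  have h1 := H_mul h2 h3 m
  have h4 := H_mul h2 h3 n
  have h5 : 3 * H (m • P0 h2 h3) = 3 * H (n • P0 h2 h3) := by
    rw [H, H, ← ht_cube, ← ht_cube, div_pow, div_pow, e3]
  rw [h1, h4] at h5
  exact hmn ((Nat.pow_left_injective (n := 2) (by norm_num))
    (Nat.eq_of_mul_eq_mul_left (by norm_num) h5))

theorem good_mul {a b d : ℕ} (ha : a ≠ 0) (hab : a < b) (hbd : b < d) :
    Good (a • P0 h2 h3) (b • P0 h2 h3) (d • P0 h2 h3) where
  n1 := mul_ne h2 h3 ha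
  n2 := mul_ne h2 h3 (by omega)
  n3 := mul_ne h2 h3 (by omega)
  x1 := xc_ne_zero h2 h3 ha
  y12 := yc_ne h2 h3 ha (by omega) (by omega)
  y13 := yc_ne h2 h3 ha (by omega) (by omega)
  y23 := yc_ne h2 h3 (by omega) (by omega) (by omega)
  x12 := xc_ne h2 h3 (by omega)
  x23 := xc_ne h2 h3 (by omega)

end Pool.Agent.K9h85.DG
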