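import Mathlib
import Pool.Agent.K9h85.DG.Special
import Pool.Agent.K9h85.DG.Iter
import Pool.Agent.K9h85.DG.Homog

/-!
The rational map, its orbits, and its dominance.
-/

set_option autoImplicit false
set_option linter.unusedSectionVars false

namespace Pool.Agent.K9h85.DG

open MvPolynomial Pool.Agent.H905R3

variable {K : Type*} [Field K]

section orbit

variable {F : Type*} [Field F] [DecidableEq F] [Algebra K F] {c : F}
  {f : RatMap K 3} {c0 : MvPolynomial (Fin 4) K}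

theorem aeval_stepT (w : Fin 4 → F) (i : Fin 4) :
    aeval w (stepT (X : Fin 4 → MvPolynomial (Fin 4) K) i) = stepT w i := by
  have := map_stepT (aeval w : MvPolynomial (Fin 4) K →ₐ[K] F).toRingHom X i
  simpa using this

theorem aeval_backT (w : Fin 4 → F) (i : Fin 4) :
    aeval w (backT (X : Fin 4 → MvPolynomial (Fin 4) K) i) = backT w i := by
  have := map_backT (aeval w : MvPolynomial (Fin 4) K →ₐ[K] F).toRingHom X i
  simpa using this

theorem one_step (h2 : (2 : F) ≠ 0) (hf : ∀ i, stepT X i = c0 * f.poly i) (w : Fin 4 → F)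
    {P1 P2 P3 : (E c).Point} (hg : Good P1 P2 P3) (k : F) (hk : k ≠ 0)
    (hw : ∀ i, w i = k * invP P1 P2 P3 i) (hne : ∃ i, stepT w i ≠ 0) :
    P1 + P2 ≠ 0 ∧ P2 + P3 ≠ 0 ∧ ∃ k' : F, k' ≠ 0 ∧
      ∀ i, aeval w (f.poly i) = k' * invP P1 (P1 + P2) (P2 + P3) i := by
  obtain ⟨a, b, k', hk', h⟩ := step_point h2 hg w k hk hw
  have h1 : ∀ i, stepT w i = aeval w c0 * aeval w (f.poly i) := by
    intro i
    rw [← aeval_stepT (K := K), hf, map_mul]
  have h3 : aeval w c0 ≠ 0 := by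
    obtain ⟨i, hi⟩ := hne
    rw [h1] at hi
    exact left_ne_zero_of_mul hi
  refine ⟨a, b, (aeval w c0)⁻¹ * k', mul_ne_zero (inv_ne_zero h3) hk', fun i => ?_⟩
  apply mul_left_cancel₀ h3
  rw [← h1, h, mul_assoc, mul_inv_cancel_left₀ h3]

theorem invP_zero {P1 P2 P3 : (E c).Point} (hg : Good P1 P2 P3) : invP P1 P2 P3 0 ≠ 0 :=
  mul_ne_zero hg.x1 (sub_ne_zero.2 hg.y13)

/-- The orbit of a point all of whose forward images are in good position. -/
theorem orbit_of_good (h2 : (2 : F) ≠ 0) (hf : ∀ i, stepT X i = c0 * f.poly i) (w : Fin 4 → F)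
    {P1 P2 P3 : (E c).Point} (hg : ∀ n, Good P1 (T2 P1 P2 n) (T3 P1 P2 P3 n)) (k : F) (hk : k ≠ 0)
    (hw : ∀ i, w i = k * invP P1 P2 P3 i) (n : ℕ) : ∃ k' : F, k' ≠ 0 ∧
      ∀ i, aeval w (f.subst n i) = k' * invP P1 (T2 P1 P2 n) (T3 P1 P2 P3 n) i := by
  induction n with
  | zero =>
    refine ⟨k, hk, fun i => ?_⟩
    rw [RatMap.subst, aeval_X, T2_zero, T3_zero, hw]
  | succ n ih =>
    obtain ⟨k', hk', h⟩ := ih
    have hne : ∃ i, stepT (fun j => aeval w (f.subst n j)) i ≠ 0 := by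
      obtain ⟨-, -, k'', hk'', h''⟩ := step_point h2 (hg n) _ k' hk' h
      refine ⟨0, ?_⟩
      rw [h'', T2_succ, T3_succ]
      exact mul_ne_zero hk'' (invP_zero (hg (n + 1)))
    obtain ⟨-, -, k'', hk'', h''⟩ := one_step h2 hf _ (hg n) k' hk' h hne
    refine ⟨k'', hk'', fun i => ?_⟩
    rw [RatMap.aeval_subst_succ, h'', T2_succ, T3_succ]

/-- Good position can be read off the coordinates. -/
theorem good_of_coord {P1 P2 P3 : (E c).Point} (n1 : P1 ≠ 0) (n2 : P2 ≠ 0) (n3 : P3 ≠ 0)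
    (w : Fin 4 → F) (k : F) (hw : ∀ i, w i = k * invP P1 P2 P3 i)
    (h0 : w 0 ≠ 0) (h3 : w 3 ≠ 0) (h30 : w 3 ≠ w 0) (h10 : w 1 ≠ w 0) (h12 : w 1 ≠ w 2) :
    Good P1 P2 P3 := by
  have e0 : w 0 = k * (xc P1 * (yc P1 - yc P3)) := hw 0
  have e1 : w 1 = k * (xc P2 * (yc P1 - yc P3)) := hw 1
  have e2 : w 2 = k * (xc P3 * (yc P1 - yc P3)) := hw 2
  have e3 : w 3 = k * (xc P1 * (yc P1 - yc P2)) := hw 3
  refine ⟨n1, n2, n3, ?_, ?_, ?_, ?_, ?_, ?_⟩
  · intro h; apply h0; rw [e0, h]; ring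
  · intro h; apply h3; rw [e3, h]; ring
  · intro h; apply h0; rw [e0, h]; ring
  · intro h; apply h30; rw [e3, e0, h]
  · intro h; apply h10; rw [e1, e0, h]
  · intro h; apply h12; rw [e1, e2, h]

theorem algInd_aeval (hd : f.Dominant) (w : Fin 4 → F) (hw : AlgebraicIndependent K w) (n : ℕ) :
    AlgebraicIndependent K (fun j => aeval w (f.subst n j)) := by
  have h1 : Function.Injective (aeval w : MvPolynomial (Fin 4) K →ₐ[K] F) := hw
  exact (algInd_subst f hd n).map' h1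

/-- The orbit of a generic point. -/
theorem orbit_generic (h2 : (2 : F) ≠ 0) (hd : f.Dominant) (hc0 : c0 ≠ 0)
    (hf : ∀ i, stepT X i = c0 * f.poly i) (w : Fin 4 → F) (hwi : AlgebraicIndependent K w)
    {P1 P2 P3 : (E c).Point} (n1 : P1 ≠ 0) (n2 : P2 ≠ 0) (n3 : P3 ≠ 0) (k : F) (hk : k ≠ 0)
    (hw : ∀ i, w i = k * invP P1 P2 P3 i) (n : ℕ) :
    T2 P1 P2 n ≠ 0 ∧ T3 P1 P2 P3 n ≠ 0 ∧ ∃ k' : F, k' ≠ 0 ∧
      ∀ i, aeval w (f.subst n i) = k' * invP P1 (T2 P1 P2 n) (T3 P1 P2 P3 n) i := by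
  induction n with
  | zero =>
    rw [T2_zero, T3_zero]
    refine ⟨n2, n3, k, hk, fun i => ?_⟩
    rw [RatMap.subst, aeval_X, hw]
  | succ n ih =>
    obtain ⟨a2, a3, k', hk', h⟩ := ih
    have hi := algInd_aeval hd w hwi n
    have hinj := hi.injective
    have hg : Good P1 (T2 P1 P2 n) (T3 P1 P2 P3 n) :=
      good_of_coord n1 a2 a3 _ k' h (hi.ne_zero 0) (hi.ne_zero 3)
        (fun e => by have := hinj e; revert this; decide)
        (fun e => by have := hinj e; revert this; decide)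
        (fun e => by have := hinj e; revert this; decide)
    have hne : ∃ i, stepT (fun j => aeval w (f.subst n j)) i ≠ 0 := by
      refine ⟨0, ?_⟩
      rw [← aeval_stepT (K := K), hf]
      intro h0
      have := hi.eq_zero_of_aeval_eq_zero _ h0
      exact mul_ne_zero hc0 (hd.ne_zero 0) this
    obtain ⟨b2, b3, k'', hk'', h''⟩ := one_step h2 hf _ hg k' hk' h hne
    rw [T2_succ] at b2 h''
    rw [T3_succ] at b3 h''
    refine ⟨b2, b3, k'', hk'', fun i => ?_⟩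
    rw [RatMap.aeval_subst_succ, h'']

end orbit

end Pool.Agent.K9h85.DG
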