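import Mathlib
import Pool.Agent.K9h85.DG.Orbit

/-!
The generic point, and the dominance of the map.
-/

set_option autoImplicit false
set_option linter.unusedSectionVars false

namespace Pool.Agent.K9h85.DG

open MvPolynomial Pool.Agent.H905R3

variable (K : Type*) [Field K]

/-- The field of rational functions in the four homogeneous coordinates. -/
abbrev LL := FractionRing (MvPolynomial (Fin 4) K)

variable {K}

/-- polynomials as rational functions -/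
noncomputable abbrev jj : MvPolynomial (Fin 4) K →+* LL K :=
  algebraMap (MvPolynomial (Fin 4) K) (LL K)

theorem jj_inj : Function.Injective (jj : MvPolynomial (Fin 4) K →+* LL K) :=
  IsFractionRing.injective _ _

theorem jj_ne {p : MvPolynomial (Fin 4) K} (hp : p ≠ 0) : jj p ≠ 0 := by
  intro h
  exact hp (jj_inj (by rw [h, map_zero]))

/-- the generic point -/
noncomputable def gX (i : Fin 4) : LL K := jj (X i)

theorem aeval_gX (p : MvPolynomial (Fin 4) K) : aeval (gX (K := K)) p = jj p := by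
  have h : (aeval (gX (K := K)) : MvPolynomial (Fin 4) K →ₐ[K] LL K) =
      IsScalarTower.toAlgHom K (MvPolynomial (Fin 4) K) (LL K) := by
    apply MvPolynomial.algHom_ext
    intro i
    rw [aeval_X]
    rfl
  rw [h]
  rfl

theorem gX_indep : AlgebraicIndependent K (gX (K := K)) := by
  have : Function.Injective (aeval (gX (K := K)) : MvPolynomial (Fin 4) K →ₐ[K] LL K) := by
    intro p q h
    rw [aeval_gX, aeval_gX] at h
    exact jj_inj h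
  exact this

theorem LL_ofNat (n : ℕ) [n.AtLeastTwo] (h : (OfNat.ofNat n : K) ≠ 0) :
    (OfNat.ofNat n : LL K) ≠ 0 := by
  have : (OfNat.ofNat n : LL K) = algebraMap K (LL K) (OfNat.ofNat n) := by rw [map_ofNat]
  rw [this]
  intro h0
  exact h ((algebraMap K (LL K)).injective (by rw [h0, map_zero]))

variable [DecidableEq (RatFunc K)] [DecidableEq (LL K)] (h2 : (2 : K) ≠ 0) (h3 : (3 : K) ≠ 0)

/-- The coordinates of the triple `(P, 3 P, 7 P)`. -/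
noncomputable def v0 : Fin 4 → RatFunc K :=
  invP (1 • P0 h2 h3) (3 • P0 h2 h3) (7 • P0 h2 h3)

theorem good0 : Good (1 • P0 h2 h3) (3 • P0 h2 h3) (7 • P0 h2 h3) :=
  good_mul h2 h3 (by norm_num) (by norm_num) (by norm_num)

theorem p_v0 : ∃ m : RatFunc K, m ≠ 0 ∧ px1 (v0 h2 h3) = m ^ 2 * xc (1 • P0 h2 h3) ∧
    px2 (v0 h2 h3) = m ^ 2 * xc (3 • P0 h2 h3) ∧ px3 (v0 h2 h3) = m ^ 2 * xc (7 • P0 h2 h3) ∧
    py1 (v0 h2 h3) = m ^ 3 * yc (1 • P0 h2 h3) ∧ py2 (v0 h2 h3) = m ^ 3 * yc (3 • P0 h2 h3) ∧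
    py3 (v0 h2 h3) = m ^ 3 * yc (7 • P0 h2 h3) := by
  have hg := good0 h2 h3
  obtain ⟨m, hm⟩ : ∃ m, m = -2 * (1 : RatFunc K) ^ 4 * xc (1 • P0 h2 h3) ^ 2 *
    (yc (1 • P0 h2 h3) - yc (7 • P0 h2 h3)) ^ 3 * (yc (1 • P0 h2 h3) - yc (3 • P0 h2 h3)) *
    (yc (3 • P0 h2 h3) - yc (7 • P0 h2 h3)) := ⟨_, rfl⟩
  refine ⟨m, ?_, p_invT 1 _ _ _ _ _ _ (eqn12 hg.n1 hg.n2) (eqn12 hg.n1 hg.n3) (v0 h2 h3)
    (fun i => (one_mul _).symm) m hm⟩
  rw [hm]
  refine mul_ne_zero (mul_ne_zero (mul_ne_zero (mul_ne_zero (mul_ne_zero (neg_ne_zero.2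
    (two_ne h2))
      (pow_ne_zero _ one_ne_zero)) (pow_ne_zero _ hg.x1)) (pow_ne_zero _ (sub_ne_zero.2 hg.y13)))
      (sub_ne_zero.2 hg.y12)) (sub_ne_zero.2 hg.y23)

theorem ne_of_ev {Q : MvPolynomial (Fin 4) K} (h : aeval (v0 h2 h3) Q ≠ 0) : Q ≠ 0 := by
  rintro rfl
  exact h (map_zero _)

theorem ev_px1 : aeval (v0 h2 h3) (px1 (X : Fin 4 → MvPolynomial (Fin 4) K)) =
    px1 (v0 h2 h3) := by
  have := map_px1 (aeval (v0 h2 h3) : MvPolynomial (Fin 4) K →ₐ[K] RatFunc K).toRingHom X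
  simpa using this
theorem ev_px2 : aeval (v0 h2 h3) (px2 (X : Fin 4 → MvPolynomial (Fin 4) K)) =
    px2 (v0 h2 h3) := by
  have := map_px2 (aeval (v0 h2 h3) : MvPolynomial (Fin 4) K →ₐ[K] RatFunc K).toRingHom X
  simpa using this
theorem ev_px3 : aeval (v0 h2 h3) (px3 (X : Fin 4 → MvPolynomial (Fin 4) K)) =
    px3 (v0 h2 h3) := by
  have := map_px3 (aeval (v0 h2 h3) : MvPolynomial (Fin 4) K →ₐ[K] RatFunc K).toRingHom X
  simpa using this
theorem ev_py1 : aeval (v0 h2 h3) (py1 (X : Fin 4 → MvPolynomial (Fin 4) K)) =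
    py1 (v0 h2 h3) := by
  have := map_py1 (aeval (v0 h2 h3) : MvPolynomial (Fin 4) K →ₐ[K] RatFunc K).toRingHom X
  simpa using this
theorem ev_py2 : aeval (v0 h2 h3) (py2 (X : Fin 4 → MvPolynomial (Fin 4) K)) =
    py2 (v0 h2 h3) := by
  have := map_py2 (aeval (v0 h2 h3) : MvPolynomial (Fin 4) K →ₐ[K] RatFunc K).toRingHom X
  simpa using this
theorem ev_py3 : aeval (v0 h2 h3) (py3 (X : Fin 4 → MvPolynomial (Fin 4) K)) =
    py3 (v0 h2 h3) := by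
  have := map_py3 (aeval (v0 h2 h3) : MvPolynomial (Fin 4) K →ₐ[K] RatFunc K).toRingHom X
  simpa using this

include h2 h3 in
theorem px_ne : px1 (X : Fin 4 → MvPolynomial (Fin 4) K) ≠ 0 ∧
    px2 (X : Fin 4 → MvPolynomial (Fin 4) K) ≠ 0 ∧
    px3 (X : Fin 4 → MvPolynomial (Fin 4) K) ≠ 0 := by
  obtain ⟨m, hm, e1, e2, e3, -⟩ := p_v0 h2 h3
  refine ⟨ne_of_ev h2 h3 ?_, ne_of_ev h2 h3 ?_, ne_of_ev h2 h3 ?_⟩
  · rw [ev_px1, e1]
    exact mul_ne_zero (pow_ne_zero _ hm) (xc_ne_zero h2 h3 (by norm_num))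
  · rw [ev_px2, e2]
    exact mul_ne_zero (pow_ne_zero _ hm) (xc_ne_zero h2 h3 (by norm_num))
  · rw [ev_px3, e3]
    exact mul_ne_zero (pow_ne_zero _ hm) (xc_ne_zero h2 h3 (by norm_num))

include h2 h3 in
/-- The generic triple of points. -/
theorem generic_pts : ∃ (c : LL K) (P1 P2 P3 : (E c).Point),
    c = jj (py1 X ^ 2 - px1 X ^ 3) ∧ P1 ≠ 0 ∧ P2 ≠ 0 ∧ P3 ≠ 0 ∧
    xc P1 = jj (px1 X) ∧ xc P2 = jj (px2 X) ∧ xc P3 = jj (px3 X) ∧
    yc P1 = jj (py1 X) ∧ yc P2 = jj (py2 X) ∧ yc P3 = jj (py3 X) ∧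
    ∃ k : LL K, k ≠ 0 ∧ ∀ i, gX i = k * invP P1 P2 P3 i := by
  obtain ⟨n1, n2, n3⟩ := px_ne h2 h3
  have i1 := jj_ne n1
  have i2 := jj_ne n2
  have i3 := jj_ne n3
  have g2 : (2 : LL K) ≠ 0 := LL_ofNat 2 h2
  have g3 : (3 : LL K) ≠ 0 := LL_ofNat 3 h3
  have q12 := p_eq12 (X : Fin 4 → MvPolynomial (Fin 4) K)
  have q13 := p_eq13 (X : Fin 4 → MvPolynomial (Fin 4) K)
  refine ⟨jj (py1 X ^ 2 - px1 X ^ 3),
    .some (jj (px1 X)) (jj (py1 X)) ((E_nonsingular g2 g3 _ _).2 ⟨?_, Or.inl i1⟩),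
    .some (jj (px2 X)) (jj (py2 X)) ((E_nonsingular g2 g3 _ _).2 ⟨?_, Or.inl i2⟩),
    .some (jj (px3 X)) (jj (py3 X)) ((E_nonsingular g2 g3 _ _).2 ⟨?_, Or.inl i3⟩),
    rfl, WeierstrassCurve.Affine.Point.some_ne_zero _,
    WeierstrassCurve.Affine.Point.some_ne_zero _,
    WeierstrassCurve.Affine.Point.some_ne_zero _, rfl, rfl, rfl, rfl, rfl, rfl, ?_⟩
  · rw [← map_pow, ← map_pow, ← map_add]; congr 1; ring
  · rw [← map_pow, ← map_pow, ← map_add, q12]; congr 1; ring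
  · rw [← map_pow, ← map_pow, ← map_add, q13]; congr 1; ring
  · have hN : (32 * pM (X : Fin 4 → MvPolynomial (Fin 4) K) ^ 2 * pN X * X 0) ≠ 0 := by
      have hpM : pM (X : Fin 4 → MvPolynomial (Fin 4) K) ≠ 0 := by
        intro h
        apply n1
        rw [px1, h, mul_zero]
      have hpN : pN (X : Fin 4 → MvPolynomial (Fin 4) K) ≠ 0 := by
        intro h
        apply hpM
        rw [pM, h, mul_zero]
      have h32 : (32 : MvPolynomial (Fin 4) K) ≠ 0 := by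
        have e : (32 : MvPolynomial (Fin 4) K) = C ((2 : K) ^ 5) := by
          rw [map_pow, map_ofNat]; norm_num
        rw [e, Ne, C_eq_zero]
        exact pow_ne_zero _ h2
      exact mul_ne_zero (mul_ne_zero (mul_ne_zero h32 (pow_ne_zero _ hpM)) hpN) (X_ne_zero 0)
    refine ⟨(jj (32 * pM (X : Fin 4 → MvPolynomial (Fin 4) K) ^ 2 * pN X * X 0))⁻¹,
      inv_ne_zero (jj_ne hN), fun i => ?_⟩
    rw [eq_inv_mul_iff_mul_eq₀ (jj_ne hN), gX, ← map_mul, ← invT_p, map_invT]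
    rfl

end Pool.Agent.K9h85.DG
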