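import Mathlib
import Pool.Agent.K9h85.DG.Generic

/-!
Existence and dominance of the map.
-/

set_option autoImplicit false
set_option linter.unusedSectionVars false

namespace Pool.Agent.K9h85.DG

open MvPolynomial Pool.Agent.H905R3

variable {K : Type*} [Field K] [DecidableEq (RatFunc K)] [DecidableEq (LL K)]
  (h2 : (2 : K) ≠ 0) (h3 : (3 : K) ≠ 0)

include h2 h3

theorem stepT_ne : ∃ i, stepT (X : Fin 4 → MvPolynomial (Fin 4) K) i ≠ 0 := by
  refine ⟨0, ne_of_ev h2 h3 ?_⟩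
  rw [aeval_stepT]
  obtain ⟨a, b, k', hk', h⟩ := step_point (two_ne h2) (good0 h2 h3) (v0 h2 h3) 1 one_ne_zero
    (fun i => (one_mul _).symm)
  rw [h]
  have e1 : 1 • P0 h2 h3 + 3 • P0 h2 h3 = 4 • P0 h2 h3 := by rw [← add_nsmul]
  have e2 : 3 • P0 h2 h3 + 7 • P0 h2 h3 = 10 • P0 h2 h3 := by rw [← add_nsmul]
  rw [e1, e2]
  exact mul_ne_zero hk' (invP_zero (good_mul h2 h3 (by norm_num) (by norm_num) (by norm_num)))

/-- The rational map. -/
theorem exists_map : ∃ (c0 : MvPolynomial (Fin 4) K) (f : RatMap K 3), c0 ≠ 0 ∧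
    ∀ i, stepT X i = c0 * f.poly i :=
  exists_reduced (N := 3) _ 100 hom_stepT (stepT_ne h2 h3)

theorem dominant_map (c0 : MvPolynomial (Fin 4) K) (f : RatMap K 3)
    (hf : ∀ i, stepT X i = c0 * f.poly i) : f.Dominant := by
  obtain ⟨c, P1, P2, P3, hc, n1, n2, n3, x1, x2, x3, y1, y2, y3, k, hk, hX⟩ :=
    generic_pts (K := K) h2 h3
  have g2 : (2 : LL K) ≠ 0 := LL_ofNat 2 h2
  have hi := gX_indep (K := K)
  have hinj := hi.injective
  have hg : Good P1 P2 P3 := good_of_coord n1 n2 n3 _ k hX (hi.ne_zero 0) (hi.ne_zero 3)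
        (fun e => by have := hinj e; revert this; decide)
        (fun e => by have := hinj e; revert this; decide)
        (fun e => by have := hinj e; revert this; decide)
  -- `x(P₃) ≠ x(P₂ - P₁)`
  have hg0 := good0 h2 h3
  have s1 : 3 • P0 h2 h3 - 1 • P0 h2 h3 = 2 • P0 h2 h3 := by
    rw [sub_eq_iff_eq_add, ← add_nsmul]
  have s2 : 7 • P0 h2 h3 - 2 • P0 h2 h3 = 5 • P0 h2 h3 := by
    rw [sub_eq_iff_eq_add, ← add_nsmul]
  have hx3 : xc P3 ≠ xc (P2 - P1) := by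
    intro h
    obtain ⟨-, a2, -⟩ := add_of_ne n2 (neg_ne n1) (by simpa using hg.x12.symm)
    rw [← sub_eq_add_neg, ← h, xc_neg, yc_neg, x1, x2, x3, y1, y2, ← map_neg, ← map_uu,
      ← map_sub, ← map_pow, ← map_mul] at a2
    have a3 := jj_inj a2
    have a4 := congrArg (aeval (v0 h2 h3)) a3
    have e := map_uu (aeval (v0 h2 h3) : MvPolynomial (Fin 4) K →ₐ[K] RatFunc K).toRingHom
      (px2 X) (py2 X) (px1 X) (-py1 X)
    simp only [AlgHom.toRingHom_eq_coe, RingHom.coe_coe, map_neg] at e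
    rw [e, map_mul, map_pow, map_sub] at a4
    simp only [ev_px1, ev_px2, ev_px3, ev_py1, ev_py2] at a4
    obtain ⟨m, hm, e1, e2, e3, f1, f2, f3⟩ := p_v0 h2 h3
    rw [e1, e2, e3, f1, f2] at a4
    have e4 : -(m ^ 3 * yc (1 • P0 h2 h3)) = m ^ 3 * -yc (1 • P0 h2 h3) := by ring
    rw [e4, uu_smul] at a4
    obtain ⟨-, b2, -⟩ := add_of_ne hg0.n2 (neg_ne hg0.n1) (by
      rw [xc_neg]; exact hg0.x12.symm)
    rw [← sub_eq_add_neg, xc_neg, yc_neg, s1] at b2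
    rw [← b2] at a4
    have hne : m ^ 6 * (xc (3 • P0 h2 h3) - xc (1 • P0 h2 h3)) ^ 2 ≠ 0 :=
      mul_ne_zero (pow_ne_zero _ hm) (pow_ne_zero _ (sub_ne_zero.2 hg0.x12.symm))
    have : xc (7 • P0 h2 h3) = xc (2 • P0 h2 h3) := by
      apply mul_left_cancel₀ hne
      linear_combination a4
    exact xc_ne h2 h3 (by norm_num) this
  obtain ⟨m2, m3, k', hk', hw⟩ := back_point g2 n1 n2 n3 hg.x1 hg.y12 hg.y13 hg.y23 hg.x12 hx3
    _ k hk hX
  -- the point before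
  have hw' : ∀ i, backT (gX (K := K)) i = jj (backT X i) := fun i => by
    rw [map_backT]; rfl
  have hx3' : xc (7 • P0 h2 h3) ≠ xc (3 • P0 h2 h3 - 1 • P0 h2 h3) := by
    rw [s1]; exact xc_ne h2 h3 (by norm_num)
  obtain ⟨-, -, l, hl, hv⟩ := back_point (two_ne h2) hg0.n1 hg0.n2 hg0.n3 hg0.x1 hg0.y12 hg0.y13
    hg0.y23 hg0.x12 hx3' (v0 h2 h3) 1 one_ne_zero (fun i => (one_mul _).symm)
  rw [s1, s2] at hv
  have hg1 : Good (1 • P0 h2 h3) (2 • P0 h2 h3) (5 • P0 h2 h3) :=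
    good_mul h2 h3 (by norm_num) (by norm_num) (by norm_num)
  have ev : ∀ i, aeval (v0 h2 h3) (backT (X : Fin 4 → MvPolynomial (Fin 4) K) i) =
      l * invP (1 • P0 h2 h3) (2 • P0 h2 h3) (5 • P0 h2 h3) i := fun i => by
    rw [aeval_backT, hv]
  have d13 := sub_ne_zero.2 hg1.y13
  have t0 : backT (gX (K := K)) 0 ≠ 0 := by
    rw [hw']
    exact jj_ne (ne_of_ev h2 h3 (by rw [ev]; exact mul_ne_zero hl (mul_ne_zero hg1.x1 d13)))
  have t3 : backT (gX (K := K)) 3 ≠ 0 := by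
    rw [hw']
    exact jj_ne (ne_of_ev h2 h3 (by
      rw [ev]; exact mul_ne_zero hl (mul_ne_zero hg1.x1 (sub_ne_zero.2 hg1.y12))))
  have sep : ∀ i j, invP (1 • P0 h2 h3) (2 • P0 h2 h3) (5 • P0 h2 h3) i ≠
      invP (1 • P0 h2 h3) (2 • P0 h2 h3) (5 • P0 h2 h3) j →
      backT (gX (K := K)) i ≠ backT (gX (K := K)) j := by
    intro i j hne h
    rw [hw', hw'] at h
    have h := jj_inj h
    have h := congrArg (aeval (v0 h2 h3)) h
    rw [ev, ev] at h
    exact hne (mul_left_cancel₀ hl h)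
  have t30 : backT (gX (K := K)) 3 ≠ backT (gX (K := K)) 0 := by
    apply sep
    intro h
    have h : xc (1 • P0 h2 h3) * (yc (1 • P0 h2 h3) - yc (2 • P0 h2 h3)) =
      xc (1 • P0 h2 h3) * (yc (1 • P0 h2 h3) - yc (5 • P0 h2 h3)) := h
    have h := mul_left_cancel₀ hg1.x1 h
    exact hg1.y23 (by linear_combination -h)
  have t10 : backT (gX (K := K)) 1 ≠ backT (gX (K := K)) 0 := by
    apply sep
    intro h
    have h : xc (2 • P0 h2 h3) * (yc (1 • P0 h2 h3) - yc (5 • P0 h2 h3)) =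
      xc (1 • P0 h2 h3) * (yc (1 • P0 h2 h3) - yc (5 • P0 h2 h3)) := h
    exact hg1.x12 (mul_right_cancel₀ d13 h).symm
  have t12 : backT (gX (K := K)) 1 ≠ backT (gX (K := K)) 2 := by
    apply sep
    intro h
    have h : xc (2 • P0 h2 h3) * (yc (1 • P0 h2 h3) - yc (5 • P0 h2 h3)) =
      xc (5 • P0 h2 h3) * (yc (1 • P0 h2 h3) - yc (5 • P0 h2 h3)) := h
    exact hg1.x23 (mul_right_cancel₀ d13 h)
  have hgood : Good P1 (P2 - P1) (P3 - (P2 - P1)) :=
    good_of_coord n1 m2 m3 _ k' hw t0 t3 t30 t10 t12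
  obtain ⟨-, -, k'', hk'', hs⟩ := step_point g2 hgood _ k' hk' hw
  have r1 : P1 + (P2 - P1) = P2 := by abel
  have r2 : P2 - P1 + (P3 - (P2 - P1)) = P3 := by abel
  rw [r1, r2] at hs
  have hs' : ∀ i, stepT (backT (gX (K := K))) i = (k'' * k⁻¹) * gX i := by
    intro i
    rw [hs, hX, mul_assoc, inv_mul_cancel_left₀ hk]
  have hs2 : ∀ i, stepT (backT (gX (K := K))) i =
      aeval (backT (gX (K := K))) c0 * aeval (backT (gX (K := K))) (f.poly i) := by
    intro i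
    rw [← aeval_stepT (K := K), hf, map_mul]
  have hkk : k'' * k⁻¹ ≠ 0 := mul_ne_zero hk'' (inv_ne_zero hk)
  have hc : aeval (backT (gX (K := K))) c0 ≠ 0 := by
    have h5 := hs2 0
    rw [hs'] at h5
    have : k'' * k⁻¹ * gX 0 ≠ 0 := mul_ne_zero hkk (hi.ne_zero 0)
    rw [h5] at this
    exact left_ne_zero_of_mul this
  refine dominant_of_generic (N := 3) (by norm_num) f (backT (gX (K := K))) (gX (K := K)) hi
    ((aeval (backT (gX (K := K))) c0)⁻¹ * (k'' * k⁻¹)) (mul_ne_zero (inv_ne_zero hc) hkk) ?_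
  intro i
  apply mul_left_cancel₀ hc
  rw [← hs2, hs', mul_assoc (aeval (backT (gX (K := K))) c0)⁻¹, mul_inv_cancel_left₀ hc]

end Pool.Agent.K9h85.DG
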