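import Mathlib
import Pool.Agent.K9h85.DG.Generic

/-!
Degrees of rational functions in four variables: `HD x d` says that `x` is a quotient of
polynomials of total degree at most `d`.
-/

set_option autoImplicit false
set_option linter.unusedSectionVars false

namespace Pool.Agent.K9h85.DG

open MvPolynomial Pool.Agent.H905R3

variable {K : Type*} [Field K]

/-- `x` is a quotient of polynomials of total degree at most `d`. -/
def HD (x : LL K) (d : ℕ) : Prop :=
  ∃ a b : MvPolynomial (Fin 4) K, b ≠ 0 ∧ a.totalDegree ≤ d ∧ b.totalDegree ≤ d ∧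
    x * jj b = jj a

theorem HD.mono {x : LL K} {d e : ℕ} (h : HD x d) (hde : d ≤ e) : HD x e := by
  obtain ⟨a, b, hb, ha, hb', h⟩ := h
  exact ⟨a, b, hb, ha.trans hde, hb'.trans hde, h⟩

theorem HD_jj {p : MvPolynomial (Fin 4) K} {d : ℕ} (h : p.totalDegree ≤ d) : HD (jj p) d :=
  ⟨p, 1, one_ne_zero, h, by simp, by simp⟩

theorem HD_zero (d : ℕ) : HD (0 : LL K) d := by
  have := HD_jj (K := K) (p := 0) (d := d) (by simp)
  rwa [map_zero] at this

theorem td_mul {p q : MvPolynomial (Fin 4) K} {d e : ℕ} (hp : p.totalDegree ≤ d)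
    (hq : q.totalDegree ≤ e) : (p * q).totalDegree ≤ d + e :=
  (totalDegree_mul _ _).trans (add_le_add hp hq)

theorem td_add {p q : MvPolynomial (Fin 4) K} {d : ℕ} (hp : p.totalDegree ≤ d)
    (hq : q.totalDegree ≤ d) : (p + q).totalDegree ≤ d :=
  (totalDegree_add _ _).trans (max_le hp hq)

theorem td_sub {p q : MvPolynomial (Fin 4) K} {d : ℕ} (hp : p.totalDegree ≤ d)
    (hq : q.totalDegree ≤ d) : (p - q).totalDegree ≤ d :=
  (totalDegree_sub _ _).trans (max_le hp hq)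

theorem td_pow {p : MvPolynomial (Fin 4) K} {d : ℕ} (hp : p.totalDegree ≤ d) (n : ℕ) :
    (p ^ n).totalDegree ≤ n * d :=
  (totalDegree_pow _ _).trans (Nat.mul_le_mul_left _ hp)

theorem td_ofNat (n : ℕ) [n.AtLeastTwo] (d : ℕ) :
    (OfNat.ofNat n : MvPolynomial (Fin 4) K).totalDegree ≤ d := by
  have : (OfNat.ofNat n : MvPolynomial (Fin 4) K) = C (OfNat.ofNat n) := by rw [map_ofNat]
  rw [this, totalDegree_C]
  exact Nat.zero_le _

theorem HD.neg {x : LL K} {d : ℕ} (h : HD x d) : HD (-x) d := by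
  obtain ⟨a, b, hb, ha, hb', h⟩ := h
  exact ⟨-a, b, hb, by rwa [totalDegree_neg], hb', by rw [map_neg, ← h]; ring⟩

theorem HD.mul {x y : LL K} {d e : ℕ} (hx : HD x d) (hy : HD y e) : HD (x * y) (d + e) := by
  obtain ⟨a, b, hb, ha, hb', h⟩ := hx
  obtain ⟨a', b', k, ka, kb, k'⟩ := hy
  refine ⟨a * a', b * b', mul_ne_zero hb k, td_mul ha ka, td_mul hb' kb, ?_⟩
  rw [map_mul, map_mul, ← h, ← k']
  ring

theorem HD.add {x y : LL K} {d e : ℕ} (hx : HD x d) (hy : HD y e) : HD (x + y) (d + e) := by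
  obtain ⟨a, b, hb, ha, hb', h⟩ := hx
  obtain ⟨a', b', k, ka, kb, k'⟩ := hy
  refine ⟨a * b' + b * a', b * b', mul_ne_zero hb k, td_add (td_mul ha kb) (td_mul hb' ka),
    td_mul hb' kb, ?_⟩
  rw [map_mul, map_add, map_mul, map_mul, ← h, ← k']
  ring

theorem HD.sub {x y : LL K} {d e : ℕ} (hx : HD x d) (hy : HD y e) : HD (x - y) (d + e) := by
  rw [sub_eq_add_neg]
  exact hx.add hy.neg

theorem HD.inv {x : LL K} {d : ℕ} (h : HD x d) : HD x⁻¹ d := by
  rcases eq_or_ne x 0 with rfl | hx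
  · rwa [inv_zero]
  obtain ⟨a, b, hb, ha, hb', h⟩ := h
  have ha0 : a ≠ 0 := by
    rintro rfl
    rw [map_zero] at h
    exact mul_ne_zero hx (jj_ne hb) h
  exact ⟨b, a, ha0, hb', ha, by rw [← h, inv_mul_cancel_left₀ hx]⟩

theorem HD.pow {x : LL K} {d : ℕ} (h : HD x d) (n : ℕ) : HD (x ^ n) (n * d) := by
  obtain ⟨a, b, hb, ha, hb', h⟩ := h
  exact ⟨a ^ n, b ^ n, pow_ne_zero _ hb, td_pow ha n, td_pow hb' n, by
    rw [map_pow, map_pow, ← h, mul_pow]⟩

/-- A rational function is a quotient of coprime polynomials. -/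
theorem exists_cop (x : LL K) : ∃ A B : MvPolynomial (Fin 4) K, B ≠ 0 ∧ IsRelPrime A B ∧
    x * jj B = jj A := by
  obtain ⟨a, b, hb, h⟩ : ∃ a b : MvPolynomial (Fin 4) K, b ≠ 0 ∧ x * jj b = jj a := by
    obtain ⟨a, b, hb, h⟩ := IsFractionRing.div_surjective (A := MvPolynomial (Fin 4) K) x
    have hb' : b ≠ 0 := nonZeroDivisors.ne_zero hb
    exact ⟨a, b, hb', by rw [← h, div_mul_cancel₀ _ (jj_ne hb')]⟩
  obtain ⟨B, A, e, hBA, hb1, ha1⟩ := UniqueFactorizationMonoid.exists_reduced_factors b hb a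
  have he : e ≠ 0 := by
    rintro rfl
    exact hb (by rw [← hb1, zero_mul])
  have hB : B ≠ 0 := by
    rintro rfl
    exact hb (by rw [← hb1, mul_zero])
  refine ⟨A, B, hB, hBA.symm, ?_⟩
  rw [← hb1, ← ha1, map_mul, map_mul] at h
  apply mul_left_cancel₀ (jj_ne he)
  rw [← h]
  ring

theorem HD.sqrt {x : LL K} {d : ℕ} (h : HD (x ^ 2) d) : HD x d := by
  obtain ⟨A, B, hB, hc, hx⟩ := exists_cop x
  obtain ⟨a, b, hb, ha, hb', h⟩ := h
  rcases eq_or_ne x 0 with rfl | hx0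
  · exact HD_zero d
  have hA : A ≠ 0 := by
    rintro rfl
    rw [map_zero] at hx
    exact mul_ne_zero hx0 (jj_ne hB) hx
  have ha0 : a ≠ 0 := by
    rintro rfl
    rw [map_zero] at h
    exact mul_ne_zero (pow_ne_zero _ hx0) (jj_ne hb) h
  have e : A ^ 2 * b = B ^ 2 * a := by
    apply jj_inj
    rw [map_mul, map_mul, map_pow, map_pow, ← h, ← hx]
    ring
  have hc2 : IsRelPrime (A ^ 2) (B ^ 2) := hc.pow
  have dA : A ^ 2 ∣ a := hc2.dvd_of_dvd_mul_left ⟨b, e.symm⟩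
  have dB : B ^ 2 ∣ b := hc2.symm.dvd_of_dvd_mul_left ⟨a, e⟩
  obtain ⟨a', rfl⟩ := dA
  obtain ⟨b', rfl⟩ := dB
  have ka := ha
  have kb := hb'
  rw [totalDegree_mul_of_isDomain (pow_ne_zero _ hA) (right_ne_zero_of_mul ha0), sq,
    totalDegree_mul_of_isDomain hA hA] at ka
  rw [totalDegree_mul_of_isDomain (pow_ne_zero _ hB) (right_ne_zero_of_mul hb), sq,
    totalDegree_mul_of_isDomain hB hB] at kb
  exact ⟨A, B, hB, by omega, by omega, hx⟩

/-- A common denominator for four rational functions. -/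
theorem HD.common {z : Fin 4 → LL K} {d : ℕ} (h : ∀ i, HD (z i) d) :
    ∃ (B : MvPolynomial (Fin 4) K) (G : Fin 4 → MvPolynomial (Fin 4) K), B ≠ 0 ∧
      (∀ i, (G i).totalDegree ≤ 4 * d) ∧ ∀ i, z i * jj B = jj (G i) := by
  choose a b hb ha hb' h using h
  refine ⟨∏ i, b i, fun i => a i * ∏ j ∈ Finset.univ.erase i, b j,
    Finset.prod_ne_zero_iff.2 fun i _ => hb i, fun i => ?_, fun i => ?_⟩
  · refine (td_mul (ha i) (e := 3 * d) ?_).trans (by omega)
    refine (totalDegree_finsetProd _ _).trans ?_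
    refine (Finset.sum_le_sum fun j _ => hb' j).trans ?_
    rw [Finset.sum_const, Finset.card_erase_of_mem (Finset.mem_univ i)]
    simp
  · rw [map_mul, ← h i, ← Finset.mul_prod_erase Finset.univ b (Finset.mem_univ i), map_mul]
    ring

end Pool.Agent.K9h85.DG
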