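import Mathlib
import Pool.Agent.K9h85.DG.Frac

/-!
Upper bounds for the degrees of the coordinates of sums and multiples of points.
-/

set_option autoImplicit false
set_option linter.unusedSectionVars false

namespace Pool.Agent.K9h85.DG

open MvPolynomial Pool.Agent.H905R3

variable {K : Type*} [Field K] [DecidableEq (LL K)] {q : MvPolynomial (Fin 4) K}

/-- The degree of the abscissa of the double. -/
theorem HD_double (h2 : (2 : K) ≠ 0) (hq : q.totalDegree ≤ 24) {Q : (E (jj q)).Point} {d : ℕ}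
    (h : HD (xc Q) d) : HD (xc (Q + Q)) (4 * d + 24) := by
  by_cases hQ : Q = 0
  · rw [hQ, add_zero]
    exact HD_zero _
  by_cases hy : yc Q = 0
  · rw [add_self_eq_zero hy]
    exact HD_zero _
  obtain ⟨-, h1⟩ := add_self (LL_ofNat 2 h2) hQ hy
  have h2' := eqn hQ
  obtain ⟨a, b, hb, ha, hb', h⟩ := h
  have hb0 := jj_ne hb
  have hg2 : (2 : LL K) ≠ 0 := LL_ofNat 2 h2
  have hg4 : (4 : LL K) ≠ 0 := by
    have : (4 : LL K) = 2 ^ 2 := by norm_num
    rw [this]; exact pow_ne_zero _ hg2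
  have e1 : 4 * yc Q ^ 2 * jj b ^ 4 = jj (4 * b * (a ^ 3 + q * b ^ 3)) := by
    rw [h2']
    simp only [map_mul, map_add, map_pow, map_ofNat, ← h]
    ring
  refine ⟨a ^ 4 - 8 * q * a * b ^ 3, 4 * b * (a ^ 3 + q * b ^ 3), ?_, ?_, ?_, ?_⟩
  · intro h0
    rw [h0, map_zero] at e1
    exact mul_ne_zero (mul_ne_zero hg4 (pow_ne_zero _ hy)) (pow_ne_zero _ hb0) e1
  · refine td_sub ((td_pow ha 4).trans (by omega)) ?_
    exact (td_mul (td_mul (td_mul (td_ofNat 8 0) hq) ha) (td_pow hb' 3)).trans (by omega)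
  · refine (td_mul (td_mul (td_ofNat 4 0) hb') (e := 3 * d + 24) (td_add ?_ ?_)).trans (by omega)
    · exact (td_pow ha 3).trans (by omega)
    · exact (td_mul hq (td_pow hb' 3)).trans (by omega)
  · rw [← e1]
    have : xc (Q + Q) * (4 * yc Q ^ 2 * jj b ^ 4) = (4 * yc Q ^ 2 * xc (Q + Q)) * jj b ^ 4 := by
      ring
    rw [this, h1]
    simp only [map_mul, map_sub, map_pow, map_ofNat, ← h]
    ring

/-- The degree of the ordinate. -/
theorem HD_yc (hq : q.totalDegree ≤ 24) {Q : (E (jj q)).Point} {d : ℕ}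
    (h : HD (xc Q) d) : HD (yc Q) (3 * d + 24) := by
  by_cases hQ : Q = 0
  · rw [hQ]
    exact HD_zero _
  apply HD.sqrt
  rw [eqn hQ]
  exact (h.pow 3).add (HD_jj hq)

/-- The degree of the abscissa of a sum. -/
theorem HD_add_pt (h2 : (2 : K) ≠ 0) (hq : q.totalDegree ≤ 24) {Q R : (E (jj q)).Point}
    {d e : ℕ} (hx : HD (xc Q) d) (hx' : HD (xc R) e) :
    HD (xc (Q + R)) (11 * (d + e) + 96) := by
  by_cases hQ : Q = 0
  · rw [hQ, zero_add]
    exact hx'.mono (by omega)
  by_cases hR : R = 0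
  · rw [hR, add_zero]
    exact hx.mono (by omega)
  by_cases he : xc Q = xc R
  · rcases eq_or_neg hQ hR he with rfl | rfl
    · exact (HD_double h2 hq hx).mono (by omega)
    · rw [neg_add_cancel]
      exact HD_zero _
  · obtain ⟨-, h1, -⟩ := add_of_ne hQ hR he
    have hne := sub_ne_zero.2 he
    have h3 : xc (Q + R) = ((xc Q - xc R) ^ 2)⁻¹ * uu (xc Q) (yc Q) (xc R) (yc R) := by
      rw [← h1, inv_mul_cancel_left₀ (pow_ne_zero _ hne)]
    have hy := HD_yc hq hx
    have hy' := HD_yc hq hx'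
    rw [h3, uu]
    exact ((((hx.sub hx').pow 2).inv).mul (((hy.sub hy').pow 2).sub
      ((hx.add hx').mul ((hx.sub hx').pow 2)))).mono (by omega)

/-- The degree of the abscissa of a sum, in terms of the difference. -/
theorem HD_diff (hq : q.totalDegree ≤ 24) {p : MvPolynomial (Fin 4) K}
    (hp : p ≠ 0) (hp8 : p.totalDegree ≤ 8) {Q R : (E (jj q)).Point} (hQ : Q ≠ 0) (hR : R ≠ 0)
    (hne : xc Q ≠ xc R) (hQR : xc (Q - R) = jj p)
    {d e : ℕ} (hx : HD (xc Q) d) (hx' : HD (xc R) e) :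
    HD (xc (Q + R)) (2 * d + 2 * e + 24) := by
  have h1 := xc_mul_sub hQ hR hne
  rw [hQR] at h1
  have hs := sub_ne_zero.2 hne
  obtain ⟨a, b, hb, ha, hb', h⟩ := hx
  obtain ⟨a', b', k, ka, kb, k'⟩ := hx'
  have e1 : (xc Q - xc R) * (jj b * jj b') = jj (a * b' - a' * b) := by
    simp only [map_mul, map_sub, ← h, ← k']
    ring
  have h0 : a * b' - a' * b ≠ 0 := by
    intro h0
    rw [h0, map_zero] at e1
    exact mul_ne_zero hs (mul_ne_zero (jj_ne hb) (jj_ne k)) e1
  refine ⟨(a * a') ^ 2 - 4 * q * (b * b') * (a * b' + a' * b), (a * b' - a' * b) ^ 2 * p,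
    mul_ne_zero (pow_ne_zero _ h0) hp, ?_, ?_, ?_⟩
  · refine td_sub ((td_pow (td_mul ha ka) 2).trans (by omega)) ?_
    exact (td_mul (td_mul (td_mul (td_ofNat 4 0) hq) (td_mul hb' kb)) (td_add (td_mul ha kb)
      ((td_mul ka hb').trans (by omega)))).trans (by omega)
  · exact (td_mul (td_pow (td_sub (td_mul ha kb) ((td_mul ka hb').trans (by omega))) 2)
      hp8).trans (by omega)
  · have e2 : jj ((a * b' - a' * b) ^ 2 * p) = (jj b * jj b') ^ 2 *
        ((xc Q - xc R) ^ 2 * jj p) := by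
      rw [map_mul, map_pow, ← e1]
      ring
    rw [e2]
    have e3 : xc (Q + R) * ((jj b * jj b') ^ 2 * ((xc Q - xc R) ^ 2 * jj p)) =
      (jj b * jj b') ^ 2 * ((xc Q - xc R) ^ 2 * (xc (Q + R) * jj p)) := by ring
    rw [e3, h1]
    simp only [map_mul, map_sub, map_add, map_pow, map_ofNat, ← h, ← k']
    ring

/-- The degrees of the abscissae of the multiples of a point. -/
theorem HD_mul (h2 : (2 : K) ≠ 0) (hq : q.totalDegree ≤ 24) {p : MvPolynomial (Fin 4) K}
    (hp : p ≠ 0) (hp8 : p.totalDegree ≤ 8) {P : (E (jj q)).Point} (hP : P ≠ 0)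
    (hx : xc P = jj p) (n : ℕ) (hn : 0 < n) : HD (xc (n • P)) (24 * n ^ 2 - 16) := by
  have hx8 : HD (xc P) 8 := by rw [hx]; exact HD_jj hp8
  induction n using Nat.strong_induction_on with
  | _ n ih =>
    rcases Nat.even_or_odd' n with ⟨m, rfl | rfl⟩
    · have hm : 0 < m := by omega
      have h1 := HD_double h2 hq (ih m (by omega) hm)
      have e : (2 * m) • P = m • P + m • P := by rw [two_mul, add_nsmul]
      rw [e]
      refine h1.mono ?_
      have : 1 ≤ m ^ 2 := Nat.one_le_pow _ _ hm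
      have h5 : (2 * m) ^ 2 = 4 * m ^ 2 := by ring
      rw [h5]
      omega
    · rcases Nat.eq_zero_or_pos m with rfl | hm
      · simpa using hx8
      have hb : 8 ≤ 24 * (2 * m + 1) ^ 2 - 16 := by
        have : 1 ≤ (2 * m + 1) ^ 2 := Nat.one_le_pow _ _ (by omega)
        omega
      have e : (2 * m + 1) • P = (m + 1) • P + m • P := by rw [← add_nsmul]; congr 1; ring
      have e' : (m + 1) • P - m • P = P := by rw [add_nsmul, one_nsmul]; abel
      rw [e]
      by_cases h0 : m • P = 0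
      · rw [add_nsmul, one_nsmul, h0, add_zero, zero_add]
        exact hx8.mono hb
      by_cases h1 : (m + 1) • P = 0
      · have : m • P = -P := by
          rw [add_nsmul, one_nsmul] at h1
          exact eq_neg_of_add_eq_zero_left h1
        rw [h1, this, zero_add, xc_neg]
        exact hx8.mono hb
      by_cases h3 : xc ((m + 1) • P) = xc (m • P)
      · rcases eq_or_neg h1 h0 h3 with h4 | h4
        · rw [h4, sub_self] at e'
          exact (hP e'.symm).elim
        · rw [h4, neg_add_cancel]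
          exact HD_zero _
      · refine (HD_diff hq hp hp8 h1 h0 h3 (by rw [e', hx]) (ih (m + 1) (by omega) (by omega))
          (ih m (by omega) hm)).mono ?_
        have : 1 ≤ m ^ 2 := Nat.one_le_pow _ _ hm
        have h5 : (2 * m + 1) ^ 2 = 4 * m ^ 2 + 4 * m + 1 := by ring
        have h6 : (m + 1) ^ 2 = m ^ 2 + 2 * m + 1 := by ring
        rw [h5, h6]
        omega

theorem HD_mul' (h2 : (2 : K) ≠ 0) (hq : q.totalDegree ≤ 24) {p : MvPolynomial (Fin 4) K}
    (hp : p ≠ 0) (hp8 : p.totalDegree ≤ 8) {P : (E (jj q)).Point} (hP : P ≠ 0)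
    (hx : xc P = jj p) (n : ℕ) : HD (xc (n • P)) (24 * n ^ 2) := by
  rcases Nat.eq_zero_or_pos n with rfl | hn
  · rw [zero_nsmul]
    exact HD_zero _
  · exact (HD_mul h2 hq hp hp8 hP hx n hn).mono (by omega)

end Pool.Agent.K9h85.DG
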