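import Mathlib
import Pool.Agent.K9h85.DG.Dom

/-!
The lower bound for the degrees.
-/

set_option autoImplicit false
set_option linter.unusedSectionVars false

namespace Pool.Agent.K9h85.DG

open MvPolynomial Pool.Agent.H905R3

variable {K : Type*} [Field K]

theorem exists_clear (v : Fin 4 → RatFunc K) : ∃ (D : Polynomial K) (γ : Fin 4 → Polynomial K),
    D ≠ 0 ∧ ∀ i, ι (γ i) = ι D * v i := by
  choose p q hq hpq h e using fun i => exists_rep (v i)
  refine ⟨∏ i, q i, fun i => p i * ∏ j ∈ Finset.univ.erase i, q j,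
    Finset.prod_ne_zero_iff.2 fun i _ => hq i, fun i => ?_⟩
  rw [map_mul, ← h i, ← Finset.mul_prod_erase Finset.univ q (Finset.mem_univ i), map_mul]
  ring

theorem aeval_ι {m : ℕ} (γ : Fin m → Polynomial K) (Q : MvPolynomial (Fin m) K) :
    ι (aeval γ Q) = aeval (fun i => ι (γ i)) Q := by
  have h : (IsScalarTower.toAlgHom K (Polynomial K) (RatFunc K)).comp (aeval γ) =
      (aeval (fun i => ι (γ i)) : MvPolynomial (Fin m) K →ₐ[K] RatFunc K) := by
    apply MvPolynomial.algHom_ext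
    intro i
    simp
  exact congrArg (fun φ => φ Q) h

variable [DecidableEq (RatFunc K)]
  (h2 : (2 : K) ≠ 0) (h3 : (3 : K) ≠ 0)

theorem T2_mul (n : ℕ) : T2 (1 • P0 h2 h3) (3 • P0 h2 h3) n = (3 + n) • P0 h2 h3 := by
  rw [T2, add_nsmul, one_nsmul]

theorem T3_mul (n : ℕ) : T3 (1 • P0 h2 h3) (3 • P0 h2 h3) (7 • P0 h2 h3) n =
    (7 + n * 3 + n.choose 2) • P0 h2 h3 := by
  rw [T3, add_nsmul, add_nsmul, one_nsmul, mul_nsmul']

theorem good_T (n : ℕ) : Good (1 • P0 h2 h3) (T2 (1 • P0 h2 h3) (3 • P0 h2 h3) n)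
    (T3 (1 • P0 h2 h3) (3 • P0 h2 h3) (7 • P0 h2 h3) n) := by
  rw [T2_mul, T3_mul]
  exact good_mul h2 h3 (by norm_num) (by omega) (by omega)

include h2 h3 in
/-- Lower bound for the degrees. -/
theorem lower_bound (c0 : MvPolynomial (Fin 4) K) (f : RatMap K 3)
    (hf : ∀ i, stepT X i = c0 * f.poly i) :
    ∃ r : ℕ, 0 < r ∧ ∀ n g, f.IsIterate n g → n ^ 4 ≤ r * g.degree := by
  obtain ⟨D, γ, hD, hγ⟩ := exists_clear (v0 h2 h3)
  obtain ⟨s, hs⟩ : ∃ s : ℕ, ∀ i, (γ i).natDegree ≤ s :=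
    ⟨Finset.univ.sup fun i => (γ i).natDegree, fun i =>
      Finset.le_sup (f := fun i => (γ i).natDegree) (Finset.mem_univ i)⟩
  refine ⟨4 * s + 1, by omega, fun n g hg => ?_⟩
  obtain ⟨c, hc, hcg⟩ := hg
  obtain ⟨k, hk, h⟩ := orbit_of_good (two_ne h2) hf (v0 h2 h3) (good_T h2 h3) 1 one_ne_zero
    (fun i => (one_mul _).symm) n
  rw [T2_mul, T3_mul] at h
  set d := 7 + n * 3 + n.choose 2 with hd
  have hgood : Good (1 • P0 h2 h3) ((3 + n) • P0 h2 h3) (d • P0 h2 h3) := by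
    have := good_T h2 h3 n
    rwa [T2_mul, T3_mul] at this
  have e1 : ∀ i, ι (aeval γ (f.subst n i)) =
      ι D ^ (f.degree ^ n) * (k * invP (1 • P0 h2 h3) ((3 + n) • P0 h2 h3) (d • P0 h2 h3) i) := by
    intro i
    rw [aeval_ι, ← h, ← aeval_smul_of_isHomogeneous (subst_homogeneous f n i)]
    simp only [hγ]
  have e2 : ∀ i, aeval γ (f.subst n i) = aeval γ c * aeval γ (g.poly i) := by
    intro i
    rw [hcg, map_mul]
  have hD' : (ι D : RatFunc K) ^ (f.degree ^ n) ≠ 0 := pow_ne_zero _ (ι_ne hD)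
  have hne : aeval γ (f.subst n 0) ≠ 0 := by
    intro h0
    have := e1 0
    rw [h0, map_zero] at this
    exact mul_ne_zero hD' (mul_ne_zero hk (invP_zero hgood)) this.symm
  rw [e2] at hne
  have hc' := left_ne_zero_of_mul hne
  have hq := right_ne_zero_of_mul hne
  have hr : (xc (d • P0 h2 h3) / xc (1 • P0 h2 h3)) * ι (aeval γ (g.poly 0)) =
      ι (aeval γ (g.poly 2)) := by
    have a0 := e1 0
    have a2 := e1 2
    rw [e2, map_mul] at a0 a2
    have i0 : invP (1 • P0 h2 h3) ((3 + n) • P0 h2 h3) (d • P0 h2 h3) 0 =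
      xc (1 • P0 h2 h3) * (yc (1 • P0 h2 h3) - yc (d • P0 h2 h3)) := rfl
    have i2 : invP (1 • P0 h2 h3) ((3 + n) • P0 h2 h3) (d • P0 h2 h3) 2 =
      xc (d • P0 h2 h3) * (yc (1 • P0 h2 h3) - yc (d • P0 h2 h3)) := rfl
    rw [i0] at a0
    rw [i2] at a2
    have hx := hgood.x1
    apply mul_left_cancel₀ (ι_ne hc')
    rw [a2]
    have : ι (aeval γ c) * (xc (d • P0 h2 h3) / xc (1 • P0 h2 h3) * ι (aeval γ (g.poly 0))) =
        xc (d • P0 h2 h3) / xc (1 • P0 h2 h3) * (ι (aeval γ c) * ι (aeval γ (g.poly 0))) := by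
      ring
    rw [this, a0]
    field_simp
  have b0 : (aeval γ (g.poly 0)).natDegree ≤ g.degree * s :=
    natDegree_aeval_le (g.homogeneous 0).totalDegree_le γ s hs
  have b2 : (aeval γ (g.poly 2)).natDegree ≤ g.degree * s :=
    natDegree_aeval_le (g.homogeneous 2).totalDegree_le γ s hs
  have hht := (ht_le hq hr).trans (max_le b2 b0)
  have hH : H (d • P0 h2 h3) ≤ ht (xc (d • P0 h2 h3) / xc (1 • P0 h2 h3)) + 1 := by
    have e : xc (d • P0 h2 h3) / (RatFunc.X ^ 3 + 1) =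
        (xc (d • P0 h2 h3) / xc (1 • P0 h2 h3)) * (xc (1 • P0 h2 h3) / (RatFunc.X ^ 3 + 1)) := by
      have := hgood.x1
      field_simp
    have h1 : ht (xc (1 • P0 h2 h3) / (RatFunc.X ^ 3 + 1)) = 1 := by
      have := H_mul h2 h3 1
      simpa [H] using this
    rw [H, e]
    refine (ht_mul_le _ _).trans ?_
    rw [h1]
  rw [H_mul] at hH
  have hd2 : n ^ 2 + 2 ≤ 2 * d := by
    have : 2 * n.choose 2 + n = n ^ 2 := by
      rw [Nat.choose_two_right, Nat.mul_div_cancel' (Nat.even_mul_pred_self n).two_dvd]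
      rcases n with _ | n
      · rfl
      · simp only [Nat.add_sub_cancel]; ring
    omega
  have h5 : n ^ 4 + 4 ≤ 4 * d ^ 2 := by
    have : (n ^ 2 + 2) ^ 2 ≤ (2 * d) ^ 2 := Nat.pow_le_pow_left hd2 2
    nlinarith [sq_nonneg (n ^ 2)]
  nlinarith

end Pool.Agent.K9h85.DG
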