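import Mathlib
import Pool.Agent.K9h85.DG.Ladder
import Pool.Agent.K9h85.DG.Dom

/-!
The upper bound for the degrees.
-/

set_option autoImplicit false
set_option linter.unusedSectionVars false

namespace Pool.Agent.K9h85.DG

open MvPolynomial Pool.Agent.H905R3

variable {K : Type*} [Field K] [DecidableEq (RatFunc K)] [DecidableEq (LL K)]
  (h2 : (2 : K) ≠ 0) (h3 : (3 : K) ≠ 0)

theorem c_degree : (py1 (X : Fin 4 → MvPolynomial (Fin 4) K) ^ 2 - px1 X ^ 3).totalDegree ≤ 24 :=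
  td_sub ((td_pow totalDegree_py1 2).trans (by norm_num))
    ((td_pow totalDegree_px1 3).trans (by norm_num))

theorem HD_invP {q : MvPolynomial (Fin 4) K} (hq : q.totalDegree ≤ 24) {P Q R : (E (jj q)).Point}
    {D : ℕ} (hP : HD (xc P) D) (hQ : HD (xc Q) D) (hR : HD (xc R) D) (i : Fin 4) :
    HD (invP P Q R i) (7 * D + 48) := by
  have yP := HD_yc hq hP
  have yQ := HD_yc hq hQ
  have yR := HD_yc hq hR
  fin_cases i
  · exact (hP.mul (yP.sub yR)).mono (by omega)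
  · exact (hQ.mul (yP.sub yR)).mono (by omega)
  · exact (hR.mul (yP.sub yR)).mono (by omega)
  · exact (hP.mul (yP.sub yQ)).mono (by omega)

include h2 h3 in
/-- Upper bound for the degrees. -/
theorem upper_bound (c0 : MvPolynomial (Fin 4) K) (hc0 : c0 ≠ 0) (f : RatMap K 3)
    (hf : ∀ i, stepT X i = c0 * f.poly i) :
    ∃ r : ℕ, 0 < r ∧ ∀ n g, 0 < n → f.IsIterate n g → g.degree ≤ r * n ^ 4 := by
  have hd := dominant_map h2 h3 c0 f hf
  obtain ⟨c, P1, P2, P3, hc, n1, n2, n3, x1, x2, x3, y1, y2, y3, k, hk, hX⟩ :=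
    generic_pts (K := K) h2 h3
  subst hc
  obtain ⟨p1, p2, p3⟩ := px_ne (K := K) h2 h3
  have hq := c_degree (K := K)
  refine ⟨142712, by norm_num, fun n g hn hg => ?_⟩
  obtain ⟨m2, m3, k', hk', hw⟩ := orbit_generic (LL_ofNat 2 h2) hd hc0 hf _ gX_indep n1 n2 n3 k hk
    hX n
  have hx1 : HD (xc P1) 8 := by rw [x1]; exact HD_jj totalDegree_px1
  have hx2 : HD (xc P2) 8 := by rw [x2]; exact HD_jj totalDegree_px2
  have hx3 : HD (xc P3) 8 := by rw [x3]; exact HD_jj totalDegree_px3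
  have hn1 : HD (xc (n • P1)) (24 * n ^ 2) := HD_mul' h2 hq p1 totalDegree_px1 n1 x1 n
  have hn2 : HD (xc (n • P2)) (24 * n ^ 2) := HD_mul' h2 hq p2 totalDegree_px2 n2 x2 n
  have hn3 : HD (xc (n.choose 2 • P1)) (24 * n.choose 2 ^ 2) :=
    HD_mul' h2 hq p1 totalDegree_px1 n1 x1 _
  have hch : 4 * n.choose 2 ^ 2 ≤ n ^ 4 := by
    have h5 : 2 * n.choose 2 ≤ n ^ 2 := by
      rw [Nat.choose_two_right, Nat.mul_div_cancel' (Nat.even_mul_pred_self n).two_dvd, sq]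
      exact Nat.mul_le_mul_left _ (by omega)
    have := Nat.pow_le_pow_left h5 2
    calc 4 * n.choose 2 ^ 2 = (2 * n.choose 2) ^ 2 := by ring
      _ ≤ (n ^ 2) ^ 2 := this
      _ = n ^ 4 := by ring
  have h24 : n ^ 2 ≤ n ^ 4 := Nat.pow_le_pow_right hn (by norm_num)
  have h04 : 1 ≤ n ^ 4 := Nat.one_le_pow _ _ hn
  have t2 : HD (xc (T2 P1 P2 n)) (5090 * n ^ 4) :=
    (HD_add_pt h2 hq hx2 hn1).mono (by omega)
  have t3 : HD (xc (T3 P1 P2 P3 n)) (5090 * n ^ 4) :=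
    (HD_add_pt h2 hq (HD_add_pt h2 hq hx3 hn2) hn3).mono (by omega)
  have t1 : HD (xc P1) (5090 * n ^ 4) := hx1.mono (by omega)
  obtain ⟨B, G, hB, hG, hBG⟩ := HD.common (HD_invP hq t1 t2 t3)
  obtain ⟨h', h0, hne, hh⟩ : ∃ a b : MvPolynomial (Fin 4) K, b ≠ 0 ∧ k' * jj b = jj a := by
    obtain ⟨a, b, hb, -, h⟩ := exists_cop k'
    exact ⟨a, b, hb, h⟩
  have := degree_le f g hg hd G _ hG (B * h0) h' (mul_ne_zero hB hne) (fun i => by
    apply jj_inj
    rw [map_mul, map_mul, map_mul, ← hBG, ← hh, ← aeval_gX (f.subst n i), hw]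
    ring)
  omega

end Pool.Agent.K9h85.DG
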